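import Pool.Agent.Lib.MP_d610d0_nt.CA.FP.Stm
import Pool.Agent.Lib.MP_d610d0_nt.CA.FP.FL
import Pool.Agent.Lib.MP_d610d0_nt.CA.FP.P.LBs
import Pool.Agent.Lib.MP_d610d0_nt.CA.LC.Main
import Pool.Agent.Lib.MP_d610d0_nt.CA.SV.Main

set_option autoImplicit false

/-!
Project CA, section FP: the assembly from the pieces.
-/

namespace Pool.Agent.CA.FP

open Finset Filter
open scoped ArithmeticFunction.Omega
open Pool.Agent.CH (zJ wJ wL Rough VV Wt dsum thP EE)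
open Pool.Agent.CH.F (mu)
open Pool.Agent.CH.D (FL FT Sf)
open Pool.Agent.CA.SV (Us Yc)

/-- Large conductors, boxes with a small first prime. -/
theorem h_LS : I_LS :=
  p_LS Pool.Agent.CA.LC.h_LBa p_cmpS Pool.Agent.CA.LC.p_dya Pool.Agent.CA.LC.p_bxp
    Pool.Agent.CA.LC.h_cof Pool.Agent.CH.D.p_spc

theorem asm_rough_FT (ω : ℝ) (hω : ω ≤ 3) : ∀ᶠ J : ℕ in atTop, ∀ j ∈ Ioc J (2 * J), ∀ n, 1 ≤ n →
    FT J n ≠ 0 → wJ J j n ≠ 0 → Rough ((J : ℝ) ^ ω) n := by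
  filter_upwards [eventually_ge_atTop 2] with J hJ j hj n hn hF hw p hp hpn
  have hprime : n.Prime := by
    by_contra h
    exact hF (by simp [FT, thP, h])
  have hpe : p = n := (Nat.prime_dvd_prime_iff_eq hp hprime).1 hpn
  have h1 := ((Pool.Agent.CH.D.p_spc J (by omega)).2.1 j hj n hn hw).1
  have h2 : J ^ 3 ≤ n := by
    have : J ^ 3 ≤ j ^ 3 := Nat.pow_le_pow_left (mem_Ioc.1 hj).1.le 3
    omega
  rw [hpe]
  have hJ1 : (1 : ℝ) ≤ J := by exact_mod_cast (show 1 ≤ J by omega)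
  calc (J : ℝ) ^ ω ≤ (J : ℝ) ^ (3 : ℝ) := Real.rpow_le_rpow_of_exponent_le hJ1 hω
    _ = ((J ^ 3 : ℕ) : ℝ) := by
        rw [show (3 : ℝ) = ((3 : ℕ) : ℝ) by norm_num, Real.rpow_natCast]; push_cast; ring
    _ ≤ n := by exact_mod_cast h2

theorem asm_rough_B0 (k : ℕ) : ∀ᶠ J : ℕ in atTop, ∀ j ∈ Ioc J (2 * J), ∀ n, 1 ≤ n →
    B0 k J n ≠ 0 → wJ J j n ≠ 0 → Rough ((J : ℝ) ^ (3 / 16 : ℝ)) n := by
  filter_upwards [eventually_ge_atTop 2] with J hJ j _ n _ hn _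
  have hJ1 : (1 : ℝ) ≤ J := by exact_mod_cast (show 1 ≤ J by omega)
  refine Pool.Agent.CA.SV.asm_bx_rough (fun _ => ?_) hn
  exact Real.rpow_le_rpow_of_exponent_le hJ1 (by norm_num)

/-- the boxes without small prime are admissible -/
theorem asm_box0 (k : ℕ) (hk : k ∈ Icc 5 9) : BoxOK k (fun J _ => ya J) (fun J _ => Yc J) := by
  refine ⟨(mem_Icc.1 hk).1, ?_, Eventually.of_forall fun J i => le_rfl⟩
  filter_upwards [eventually_ge_atTop 2] with J hJ i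
  have hJ1 : (1 : ℝ) ≤ J := by exact_mod_cast (show 1 ≤ J by omega)
  exact Real.rpow_le_rpow_of_exponent_le hJ1 (by norm_num)

/-- the boxes with a small prime are admissible -/
theorem asm_box1 (c k : ℕ) (hc : c ∈ Ico 64 224) (hk : k ∈ Icc 4 9) :
    BoxS k (fun J => lo1 c k J) (fun J => hi1 c k J) := by
  refine ⟨(mem_Icc.1 hk).1, ?_⟩
  filter_upwards [eventually_ge_atTop 2] with J hJ
  have hJ1 : (1 : ℝ) ≤ J := by exact_mod_cast (show 1 ≤ J by omega)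
  have hJ0 : (0 : ℝ) < J := by linarith
  have hc1 : (64 : ℝ) ≤ c := by exact_mod_cast (mem_Ico.1 hc).1
  have hc2 : ((c : ℝ) + 1) ≤ 224 := by exact_mod_cast (mem_Ico.1 hc).2
  have hceil : ((⌈(J : ℝ) ^ (((c : ℝ) + 1) / 704)⌉₊ : ℝ) - 1) ≤ (J : ℝ) ^ (((c : ℝ) + 1) / 704) := by
    have := Nat.ceil_lt_add_one (Real.rpow_nonneg hJ0.le (((c : ℝ) + 1) / 704))
    linarith
  refine ⟨?_, ?_, ?_, ?_⟩
  · show (J : ℝ) ^ (1 / 12 : ℝ) ≤ (J : ℝ) ^ ((c : ℝ) / 704)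
    apply Real.rpow_le_rpow_of_exponent_le hJ1
    linarith
  · show ((⌈(J : ℝ) ^ (((c : ℝ) + 1) / 704)⌉₊ : ℝ) - 1) ≤ _
    refine hceil.trans (Real.rpow_le_rpow_of_exponent_le hJ1 ?_)
    linarith
  · intro i
    exact le_rfl
  · intro i
    show ((⌈(J : ℝ) ^ (((c : ℝ) + 1) / 704)⌉₊ : ℝ) - 1) * Y1 c J ≤ _
    have hY : 0 ≤ Y1 c J := Real.rpow_nonneg hJ0.le _
    refine (mul_le_mul_of_nonneg_right hceil hY).trans ?_
    unfold Y1
    rw [← Real.rpow_add hJ0]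
    apply Real.rpow_le_rpow_of_exponent_le hJ1
    linarith

/-- The conclusion from the pieces and the interfaces. -/
theorem of_pieces (iLL : I_LL) (iSL : I_SL) (iCL : I_CL) (iLB : I_LB) (iSB : I_SB) (iCB : I_CB)
    (iSS : I_SS) (iCS : I_CS)
    (tab : S_tab) (parg : S_parg) (sg : S_sg) (sWW : S_WW) (mvg : S_mvg) (VA : S_VA) (numF : S_numF)
    (cor : S_cor) (redA : S_redA) (rb1 : S_rb1) (rb2 : S_rb2) (redB : S_redB)
    (m1A : S_m1A) (bxT : S_bxT) (cellA : S_cellA) (winG : S_winG) (ptwA : S_ptwA)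
    (nA0 : S_nA0) (nA1 : S_nA1) (nE1 : S_nE1) (nE0 : S_nE0) (lwA0 : S_lwA0) (lwA1 : S_lwA1)
    (msA : S_msA) (gwA : S_gwA) (seA : S_seA) (bgA : S_bgA) (sqA : S_sqA) (swG : S_swG)
    (rrA : S_rrA) (tqW : S_tqW) (tqA : S_tqA) (loA : S_loA) (upA : S_upA) (ptA : S_ptA)
    (oneA : S_oneA) (goodA : S_goodA) (finA : S_finA) : I_final4 := by
  have hpp := Pool.Agent.CH.D.h_pp
  have hgrp := Pool.Agent.CH.D.h_grp
  have hcfs := Pool.Agent.CH.D.p_cfs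
  have hm1a := Pool.Agent.CH.D.p_m1a Pool.Agent.CH.P.h_PNT
  have hwn := Pool.Agent.CH.F.p_win
  have hSg : I_Sg := sg tab parg
  have hWW : R_WW := sWW hSg
  have hred : R_redA := redA hgrp hcfs cor
  have hredB : R_redB := redB hgrp hcfs cor hred rb1 (rb2 hwn) h_LS iSS
  obtain ⟨tL, tS, tC⟩ := Pool.Agent.CA.SV.p_tt hpp iLL iSL iCL
  have fT : FinG (7 / 22) FT (-2) := hred _ FT tL tS (asm_rough_FT _ (by norm_num)) (-2) (Or.inr rfl)
  have f0 : ∀ k ∈ Icc 5 9, FinG (3 / 16) (B0 k) 2 := fun k hk =>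
    hred _ (B0 k) (iLB k _ _ (asm_box0 k hk)) (iSB k _ _ (asm_box0 k hk))
      (asm_rough_B0 k) 2 (Or.inl rfl)
  have f1 : ∀ c ∈ Ico 64 224, ∀ k ∈ Icc 4 9, FinG (3 / 16) (B1 c k) 2 := fun c hc k hk =>
    hredB k _ _ (asm_box1 c k hc hk)
  have c0 : ∀ k ∈ Icc 5 9, CMw (B0 k) := fun k hk => iCB k _ _ (asm_box0 k hk)
  have c1 : ∀ c ∈ Ico 64 224, ∀ k ∈ Icc 4 9, CMw (B1 c k) := fun c hc k hk =>
    iCS k _ _ (asm_box1 c k hc hk)
  have hcell : R_cellA := cellA Pool.Agent.CH.M2.p_log2 Pool.Agent.CH.M2.p_mer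
  have hwin : R_winG := winG (Pool.Agent.CH.M2.p_sh Pool.Agent.CH.P.h_PNT)
  have hptw : R_ptwA := ptwA hwin
  have htup := Pool.Agent.CA.SV.p_tup
  have hl0 : R_lwA0 := lwA0 Pool.Agent.CH.M2.p_tup2 htup bxT hcell hptw nA0
  have hl1 : R_lwA1 := lwA1 Pool.Agent.CH.M2.p_tup2 htup bxT hcell hptw nA1
  have hms : R_msA := msA c0 c1 hl0 hl1
  have hse : R_seA := seA Pool.Agent.CH.M2.p_tup1 htup hcell nE0 nE1
  have hgw : R_gwA := gwA Pool.Agent.CA.SV.p_cls Pool.Agent.CA.SV.p_gt Pool.Agent.CA.SV.p_tl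
  have hbg : R_bgA := bgA hwn Pool.Agent.CA.SV.p_sel Pool.Agent.CA.SV.p_cls hgw hse
  have hgood : R_goodA := goodA fT f0 f1 (m1A hpp hm1a tC) hms sqA hbg
  have htq : R_tqA := tqA hwn swG tqW hcell numF tab
  have hlo : R_loA := loA hwn swG numF
  have hup : R_upA := upA hwn swG rrA mvg numF tab
  exact finA hgood hWW (oneA VA hwn hlo htq hup ptA)

end Pool.Agent.CA.FP
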