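import Pool.Agent.Lib.MP_d610d0_nt.CA.LC.Stm
import Pool.Agent.Lib.MP_d610d0_nt.CA.SV.Stm
import Pool.Agent.Lib.MP_d610d0_nt.CH.S.Stm

set_option autoImplicit false

/-!
Project CA, section FP (primes `p` with `p + 2 = P_4` between ALL consecutive cubes): definitions.

`J` is large, `L = log J`, windows `J < j ≤ 2 J`, `x = (j + 1/2)^3`, `mu = mu J j = x / (2 J)`. All sizes are powers of `J`
(`x` is about `J^3`): sifting limit `za = J^(1/11)`, `ya = J^(7/22)`, sifting limit of the switched sieve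
`xa = J^(3/16)`, level `J^(4995/10000)` (`J^(4996/10000)` with the fundamental lemma).
-/

namespace Pool.Agent.CA.FP

open Finset Filter
open scoped ArithmeticFunction.Omega
open Pool.Agent.MP89da58 (tri primChars)
open Pool.Agent.CH (zJ wJ wL Rough VV Wt dsum thP EE)
open Pool.Agent.CH.F (mu)
open Pool.Agent.CH.M2 (Sp)
open Pool.Agent.CH.D (FL FT Sf)
open Pool.Agent.CA.SV (Us Yc GS cl De Rc)

/-! ### Sizes -/

/-- The sifting limit `J ^ (1/11)`. -/
noncomputable def za (J : ℕ) : ℝ := (J : ℝ) ^ (1 / 11 : ℝ)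

/-- `J ^ (7/22)`. -/
noncomputable def ya (J : ℕ) : ℝ := (J : ℝ) ^ (7 / 22 : ℝ)

/-- The sifting limit of the switched sieve, `J ^ (3/16)`. -/
noncomputable def xa (J : ℕ) : ℝ := (J : ℝ) ^ (3 / 16 : ℝ)

/-! ### The sieve functions: piecewise linear with nodes `i / 20` -/

/-- Values of `uS` at `i / 20`, `20 ≤ i ≤ 160`, in units of `10 ^ (-6)`. -/
def tu : List ℕ := [
  2572400, 2402286, 2247637, 2106435, 1977000, 1857920, 1748000, 1646223, 1551715, 1463725, 1381600, 1304775,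
  1232750, 1165091, 1101412, 1041372, 984667, 931028, 880211, 832000, 786200, 742635, 701143, 661582,
  623819, 587734, 553218, 520171, 488500, 458123, 428960, 400942, 374000, 348076, 323112, 299055,
  275858, 253474, 231863, 210984, 189596, 170652, 153632, 138325, 124548, 112138, 100952, 90865,
  81763, 73549, 66133, 59437, 53391, 47931, 43001, 38550, 34533, 30909, 27641, 24694,
  22040, 19651, 17502, 15570, 13835, 12280, 10885, 9638, 8523, 7528, 6642, 5853,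
  5152, 4531, 3981, 3496, 3067, 2690, 2358, 2067, 1812, 1588, 1391, 1219,
  1068, 936, 819, 718, 629, 550, 482, 422, 370, 324, 284, 250,
  219, 193, 169, 149, 132, 116, 103, 92, 81, 73, 65, 58,
  53, 48, 43, 40, 36, 33, 31, 30, 30, 30, 30, 30,
  30, 30, 30, 30, 30, 30, 30, 30, 30, 30, 30, 30,
  30, 30, 30, 30, 30, 30, 30, 30, 30]

/-- Values of `lS` at `i / 20`, `40 ≤ i ≤ 160`, in units of `10 ^ (-6)`. -/
def tl : List ℕ := [
  1007712, 922406, 845032, 774701, 710645, 652200, 598788, 549903, 505101, 463992, 426231, 391510,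
  359557, 330130, 303009, 278000, 254928, 233635, 213977, 195825, 179063, 163584, 149290, 136095,
  123916, 112680, 102321, 92775, 83987, 75903, 68476, 61662, 55418, 49709, 44497, 39752,
  35443, 31542, 28023, 24863, 22038, 19540, 17323, 15354, 13605, 12051, 10671, 9444,
  8355, 7388, 6529, 5767, 5090, 4490, 3958, 3487, 3070, 2700, 2374, 2085,
  1830, 1606, 1408, 1233, 1080, 945, 827, 723, 632, 553, 483, 423,
  370, 324, 283, 248, 218, 191, 168, 148, 131, 116, 103, 91,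
  81, 73, 65, 58, 53, 48, 43, 40, 36, 33, 31, 30,
  30, 30, 30, 30, 30, 30, 30, 30, 30, 30, 30, 30,
  30, 30, 30, 30, 30, 30, 30, 30, 30, 30, 30, 30,
  30]

/-- Values of the integral of `uS` from `i / 20` on, `20 ≤ i ≤ 160`, in units of `10 ^ (-6) / 40`. -/
def tU : List ℕ := [
  80536346, 75561660, 70911737, 66557665, 62474230, 58639310, 55033390, 51639167, 48441229, 45425789, 42580464, 39894089,
  37356564, 34958723, 32692220, 30549436, 28523397, 26607702, 24796463, 23084252, 21466052, 19937217, 18493439, 17130714,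
  15845313, 14633760, 13492808, 12419419, 11410748, 10464125, 9577042, 8747140, 7972198, 7250122, 6578934, 5956767,
  5381854, 4852522, 4367185, 3924338, 3522554, 3162306, 2838022, 2546065, 2283192, 2046506, 1833416, 1641599,
  1468971, 1313659, 1173977, 1048407, 935579, 834257, 743325, 661774, 588691, 523249, 464699, 412364,
  365630, 323939, 286786, 253714, 224309, 198194, 175029, 154506, 136345, 120294, 106124, 93629,
  82624, 72941, 64429, 56952, 50389, 44632, 39584, 35159, 31280, 27880, 24901, 22291,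
  20004, 18000, 16245, 14708, 13361, 12182, 11150, 10246, 9454, 8760, 8152, 7618,
  7149, 6737, 6375, 6057, 5776, 5528, 5309, 5114, 4941, 4787, 4649, 4526,
  4415, 4314, 4223, 4140, 4064, 3995, 3931, 3870, 3810, 3750, 3690, 3630,
  3570, 3510, 3450, 3390, 3330, 3270, 3210, 3150, 3090, 3030, 2970, 2910,
  2850, 2790, 2730, 2670, 2610, 2550, 2490, 2430, 2370]

/-- Values of the integral of `lS` from `i / 20` on, `40 ≤ i ≤ 160`, in units of `10 ^ (-6) / 40`. -/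
def tL : List ℕ := [
  22728778, 20798660, 19031222, 17411489, 15926143, 14563298, 13312310, 12163619, 11108615, 10139522, 9249299, 8431558,
  7680491, 6990804, 6357665, 5776656, 5243728, 4755165, 4307553, 3897751, 3522863, 3180216, 2867342, 2581957,
  2321946, 2085350, 1870349, 1675253, 1498491, 1338601, 1194222, 1064084, 947004, 841877, 747671, 663422,
  588227, 521242, 461677, 408791, 361890, 320312, 283449, 250772, 221813, 196157, 173435, 153320,
  135521, 119778, 105861, 93565, 82708, 73128, 64680, 57235, 50678, 44908, 39834, 35375,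
  31460, 28024, 25010, 22369, 20056, 18031, 16259, 14709, 13354, 12169, 11133, 10227,
  9434, 8740, 8133, 7602, 7136, 6727, 6368, 6052, 5773, 5526, 5307, 5113,
  4941, 4787, 4649, 4526, 4415, 4314, 4223, 4140, 4064, 3995, 3931, 3870,
  3810, 3750, 3690, 3630, 3570, 3510, 3450, 3390, 3330, 3270, 3210, 3150,
  3090, 3030, 2970, 2910, 2850, 2790, 2730, 2670, 2610, 2550, 2490, 2430,
  2370]


/-- The values beyond `8`. -/
noncomputable def tS (i : ℕ) : ℝ := (30 / 10 ^ 6) / 2 ^ ((i - 160) / 20)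

/-- The value of `uS` at `i / 20`. -/
noncomputable def uN (i : ℕ) : ℝ := if i ≤ 160 then ((tu.getD (i - 20) 0 : ℕ) : ℝ) / 10 ^ 6 else tS i

/-- The value of `lS` at `i / 20`. -/
noncomputable def lN (i : ℕ) : ℝ := if i ≤ 160 then ((tl.getD (i - 40) 0 : ℕ) : ℝ) / 10 ^ 6 else tS i

/-- The left limit of `uS` at `(i + 1) / 20` (there is a jump at `3`). -/
noncomputable def uR (i : ℕ) : ℝ := if i = 59 then 190800 / 10 ^ 6 else uN (i + 1)

/-- The upper sieve function is `1 + uS`. -/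
noncomputable def uS (s : ℝ) : ℝ :=
  (1 - (20 * s - ⌊20 * s⌋₊)) * uN ⌊20 * s⌋₊ + (20 * s - ⌊20 * s⌋₊) * uR ⌊20 * s⌋₊

/-- The lower sieve function is `1 - lS`. -/
noncomputable def lS (s : ℝ) : ℝ :=
  (1 - (20 * s - ⌊20 * s⌋₊)) * lN ⌊20 * s⌋₊ + (20 * s - ⌊20 * s⌋₊) * lN (⌊20 * s⌋₊ + 1)

/-- Explicit supersolution of the linear sieve equations, with slack `1/1000`. -/
structure SS1 (u l U L : ℝ → ℝ) (K : ℝ) : Prop where
  u_anti : ∀ x y, 1 ≤ x → x ≤ y → u y ≤ u x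
  l_anti : ∀ x y, 2 ≤ x → x ≤ y → l y ≤ l x
  u_pos : ∀ x, 1 ≤ x → 0 < u x
  l_pos : ∀ x, 2 ≤ x → 0 < l x
  U_int : ∀ x y, 1 ≤ x → x ≤ y → (y - x) * u y ≤ U x - U y
  L_int : ∀ x y, 2 ≤ x → x ≤ y → (y - x) * l y ≤ L x - L y
  U_nn : ∀ x, 1 ≤ x → 0 ≤ U x
  L_nn : ∀ x, 2 ≤ x → 0 ≤ L x
  low : ∀ s, 2 ≤ s → (1 + 1 / 1000) * U (s - 1) ≤ s * l s
  up : ∀ s, 3 ≤ s → (1 + 1 / 1000) * L (s - 1) ≤ s * u s
  mid : ∀ s, 1 ≤ s → s < 3 → K / s ≤ 1 + u s
  K3 : 3 * (1 + 1 / 1000) * (1 + u 3) ≤ K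

open Classical in
/-- Sieve weights with sifting limit `J ^ w` and level `J ^ (k + e)`; the main terms are as for level `J ^ k`. -/
structure SWg (w k e : ℝ) (J : ℕ) (cp cm : ℕ → ℝ) : Prop where
  wp : Wt ((J : ℝ) ^ w) ((J : ℝ) ^ (k + e)) cp
  wm : Wt ((J : ℝ) ^ w) ((J : ℝ) ^ (k + e)) cm
  lo : ∀ n : ℕ, Odd n → dsum cm n ≤ (if Rough ((J : ℝ) ^ w) n then 1 else 0)
  up : ∀ n : ℕ, Odd n → (if Rough ((J : ℝ) ^ w) n then 1 else 0) ≤ dsum cp n
  mp : ∀ N : ℕ, (J : ℝ) ^ (k + e) ≤ N →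
    ∑ d ∈ Icc 1 N, cp d / (Nat.totient d : ℝ) ≤ (1 + 1 / 5000) * (1 + uS (k / w)) * VV ((J : ℝ) ^ w)
  mm : 2 * w ≤ k → ∀ N : ℕ, (J : ℝ) ^ (k + e) ≤ N →
    (1 - lS (k / w) - 1 / 2000) * VV ((J : ℝ) ^ w) ≤ ∑ d ∈ Icc 1 N, cm d / (Nat.totient d : ℝ)

/-- The general interface for the sieve weights. -/
def I_Sg : Prop := ∀ w k e : ℝ, 0 < w → w ≤ k → 0 < e → ∀ᶠ J : ℕ in atTop,
  ∃ cp cm : ℕ → ℝ, SWg w k e J cp cm

/-! ### Boxes with a small first prime -/

/-- Admissible boxes at `J`: the first prime between `J ^ (1/12)` and `J ^ (7/22)`, the others between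
`J ^ (7/22)` and `J ^ (2 - 1/1000)` divided by the upper end for the first prime. -/
structure BoxSJ (k J : ℕ) (lo hi : Fin (k + 1) → ℝ) : Prop where
  lo0 : (J : ℝ) ^ (1 / 12 : ℝ) ≤ lo 0
  hi0 : hi 0 ≤ (J : ℝ) ^ (7 / 22 : ℝ)
  lo1 : ∀ i : Fin k, (J : ℝ) ^ (7 / 22 : ℝ) ≤ lo i.succ
  hi1 : ∀ i : Fin k, hi 0 * hi i.succ ≤ (J : ℝ) ^ (2 - 1 / 1000 : ℝ)

/-- Admissible families of boxes. -/
structure BoxS (k : ℕ) (lo hi : ℕ → Fin (k + 1) → ℝ) : Prop where
  k4 : 4 ≤ k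
  bx : ∀ᶠ J : ℕ in atTop, BoxSJ k J (lo J) (hi J)

/-- Large conductors, boxes with a small first prime, uniformly in the box. -/
def I_LS : Prop := ∀ k A : ℕ, 4 ≤ k → ∃ B : ℕ, ∀ᶠ J : ℕ in atTop, ∀ R : ℕ,
  (Real.log J) ^ B ≤ (R : ℝ) → (R : ℝ) ≤ (J : ℝ) ^ (4998 / 10000 : ℝ) → ∀ j ∈ Ioc J (2 * J),
  ∀ lo hi : Fin (k + 1) → ℝ, BoxSJ k J lo hi →
  ∑ p ∈ primChars R, ‖Sf (fun n => bx (k + 1) lo hi n) J j p.2‖ ≤ (R : ℝ) * (J : ℝ) ^ 2 / (Real.log J) ^ A

/-- Small conductors, boxes with a small first prime. -/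
def I_SS : Prop := ∀ (k : ℕ) (lo hi : ℕ → Fin (k + 1) → ℝ), BoxS k lo hi →
  SCw (fun J n => bx (k + 1) (lo J) (hi J) n)

/-- Comparison with the long windows, boxes with a small first prime. -/
def I_CS : Prop := ∀ (k : ℕ) (lo hi : ℕ → Fin (k + 1) → ℝ), BoxS k lo hi →
  CMw (fun J n => bx (k + 1) (lo J) (hi J) n)

/-- The final bound for the sequence `F`, residue class `a`, in every window, moduli without prime factors
`≥ J ^ ω`. -/
def FinG (ω : ℝ) (F : ℕ → ℕ → ℝ) (a : ℤ) : Prop := ∀ A : ℕ, ∀ᶠ J : ℕ in atTop, ∀ c : ℕ → ℝ,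
  Wt ((J : ℝ) ^ ω) ((J : ℝ) ^ (4996 / 10000 : ℝ)) c → ∀ j ∈ Ioc J (2 * J),
  |∑ q ∈ Icc 1 (Nat.sqrt J), c q * EE J (F J) a j q| ≤ (J : ℝ) ^ 2 / (Real.log J) ^ A

/-! ### The cells (`J ^ (i / 704) ≤ p < J ^ ((i + 1) / 704)`) -/

/-- The cell of `p`. -/
noncomputable def mA (J p : ℕ) : ℕ := ⌊704 * Real.log p / Real.log J⌋₊

/-- Upper bound for the sum of `1 / (p - 1)` over the cell `i`. -/
noncomputable def aA (i : ℕ) : ℝ := 1.0005 * (2 * i + 1) / (2 * i * (i + 1))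

/-- The same for the primes `≥ ya J`. -/
noncomputable def aB (i : ℕ) : ℝ := if 224 ≤ i then aA i else 0

/-- Upper bound for `L / log (x / P)` if `P` is a product of `r` primes in the cells `m_1, ..., m_r`,
`M = m_1 + ... + m_r`, and the last prime is `≥ ya J`. -/
noncomputable def PhA (r M : ℕ) : ℝ := if M < 1889 then 704 / ((max 224 (2112 - M - r) : ℕ) : ℝ) else 0

/-- The indicator function of `M < K`. -/
noncomputable def In (K M : ℕ) : ℝ := if M < K then 1 else 0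

/-! ### The switched sequences -/

open Classical in
/-- The primes in `[za J, ya J)`. -/
noncomputable def QS (J : ℕ) : Finset ℕ :=
  (range (J + 1)).filter (fun q : ℕ => q.Prime ∧ za J ≤ q ∧ (q : ℝ) < ya J)

/-- The upper end for the large primes if the small prime is in the cell `c`. -/
noncomputable def Y1 (c J : ℕ) : ℝ := (J : ℝ) ^ (2 - 1 / 500 - ((c : ℝ) + 1) / 704)

/-- The lower ends of the box with the small prime in the cell `c`. -/
noncomputable def lo1 (c k J : ℕ) : Fin (k + 1) → ℝ :=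
  Fin.cons ((J : ℝ) ^ ((c : ℝ) / 704)) (fun _ => ya J)

/-- The upper ends of the box with the small prime in the cell `c`. -/
noncomputable def hi1 (c k J : ℕ) : Fin (k + 1) → ℝ :=
  Fin.cons ((⌈(J : ℝ) ^ (((c : ℝ) + 1) / 704)⌉₊ : ℝ) - 1) (fun _ => Y1 c J)

/-- Products of `k` primes in `[ya, Yc]`. -/
noncomputable def B0 (k : ℕ) : ℕ → ℕ → ℝ := fun J n => bx k (fun _ => ya J) (fun _ => Yc J) n

/-- Products of a prime in the cell `c` and `k` primes in `[ya, Y1 c]`. -/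
noncomputable def B1 (c k : ℕ) : ℕ → ℕ → ℝ := fun J n => bx (k + 1) (lo1 c k J) (hi1 c k J) n

/-- The switched sequence without small prime. -/
noncomputable def RB0 (J n : ℕ) : ℝ := ∑ k ∈ Icc 5 9, B0 k J n / (k.factorial : ℝ)

/-- The switched sequence with one small prime. -/
noncomputable def RB1 (J n : ℕ) : ℝ :=
  ∑ c ∈ Ico 64 224, ∑ k ∈ Icc 4 9, B1 c k J n / (k.factorial : ℝ)

/-! ### Cofactors of very large primes -/

open Classical in
/-- The cofactors without small prime. -/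
noncomputable def ES0 (J : ℕ) : Finset ℕ :=
  (Icc 1 ⌊27 * (J : ℝ) ^ (27 / 20 : ℝ)⌋₊).filter
    (fun e => Squarefree e ∧ Rough (ya J) e ∧ 4 ≤ Ω e)

open Classical in
/-- The cofactors with one small prime. -/
noncomputable def ES1 (J : ℕ) : Finset ℕ :=
  (Icc 1 ⌊27 * (J : ℝ) ^ (27 / 20 : ℝ)⌋₊).filter
    (fun e => Squarefree e ∧ ∃ q ∈ QS J, q ∣ e ∧ Rough (ya J) (e / q) ∧ 3 ≤ Ω (e / q) ∧
      ((e / q : ℕ) : ℝ) ≤ 27 * (J : ℝ) ^ (1 + 1 / 500 + 1 / 704 : ℝ))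

/-! ### The windows -/

open Classical in
/-- The number of `n` in `(j^3, (j+1)^3)` divisible by the square of a prime `≥ za J`. -/
noncomputable def sqa (J j : ℕ) : ℕ :=
  ((Ioo (j ^ 3) ((j + 1) ^ 3)).filter (fun n : ℕ => ∃ q : ℕ, q.Prime ∧ za J ≤ q ∧ q ^ 2 ∣ n)).card

/-- The class without small prime. -/
def C0 (J n : ℕ) : Prop := Squarefree n ∧ Rough (ya J) n ∧ 5 ≤ Ω n

/-- The class with the small prime `q`. -/
def C1 (J q n : ℕ) : Prop := Squarefree n ∧ q ∈ QS J ∧ q ∣ n ∧ Rough (ya J) (n / q) ∧ 5 ≤ Ω n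

open Classical in
/-- The number of primes `p` in the window with `p + 2` in the class without small prime and a prime factor
larger than `Yc J`. -/
noncomputable def bg0 (J j : ℕ) : ℕ :=
  ((Icc 1 (27 * J ^ 3)).filter (fun p : ℕ => p.Prime ∧ wJ J j p ≠ 0 ∧ C0 J (p + 2) ∧
    ∃ m : ℕ, m.Prime ∧ m ∣ p + 2 ∧ Yc J < m)).card

open Classical in
/-- The number of primes `p` in the window with `p + 2` in the class with a small prime `q` and a prime factor
larger than `Y1 c J`, `c` the cell of `q`. -/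
noncomputable def bg1 (J j : ℕ) : ℕ :=
  ((Icc 1 (27 * J ^ 3)).filter (fun p : ℕ => p.Prime ∧ wJ J j p ≠ 0 ∧
    ∃ q : ℕ, C1 J q (p + 2) ∧ ∃ m : ℕ, m.Prime ∧ m ∣ p + 2 ∧ Y1 (mA J q) J < m)).card

open Classical in
/-- The weighted number of primes `p` in the window such that `p + 2` is `za`-rough. -/
noncomputable def Sa (J j : ℕ) : ℝ := ∑ p ∈ Icc 1 (27 * J ^ 3),
  thP p * wJ J j p * (if Rough (za J) (p + 2) then 1 else 0)

open Classical in
/-- The same with the number of the prime factors in `[za, ya)` as a weight. -/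
noncomputable def Ta (J j : ℕ) : ℝ := ∑ p ∈ Icc 1 (27 * J ^ 3),
  thP p * wJ J j p * (if Rough (za J) (p + 2) then
    ((((QS J).filter (fun q => q ∣ p + 2)).card : ℕ) : ℝ) else 0)

open Classical in
/-- The weighted number of primes `p` in the window with `p + 2` in the class without small prime. -/
noncomputable def T0 (J j : ℕ) : ℝ := ∑ p ∈ Icc 1 (27 * J ^ 3),
  thP p * wJ J j p * (if C0 J (p + 2) then 1 else 0)

open Classical in
/-- The weighted number of primes `p` in the window with `p + 2` in the class with a small prime. -/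
noncomputable def T1 (J j : ℕ) : ℝ := ∑ p ∈ Icc 1 (27 * J ^ 3),
  thP p * wJ J j p * (if ∃ q : ℕ, C1 J q (p + 2) then 1 else 0)

open Classical in
/-- The weighted number of primes `p` in the window such that `p + 2` is `za`-rough with at most four prime
factors. -/
noncomputable def Pa (J j : ℕ) : ℝ := ∑ p ∈ Icc 1 (27 * J ^ 3),
  thP p * wJ J j p * (if Rough (za J) (p + 2) ∧ Ω (p + 2) ≤ 4 then 1 else 0)

/-- The sieve weights for the windows: `cm` (lower bound) for the sifting limit `za`, `cx` (upper bound) for the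
sifting limit `xa`, and `cq c` (upper bound) for the numbers divisible by a prime in the cell `c`. -/
structure WW (J : ℕ) (cm cx : ℕ → ℝ) (cq : ℕ → ℕ → ℝ) : Prop where
  w1 : ∃ cp : ℕ → ℝ, SWg (1 / 11) (4995 / 10000) (1 / 10000) J cp cm
  w2 : ∃ cy : ℕ → ℝ, SWg (3 / 16) (4995 / 10000) (1 / 10000) J cx cy
  w3 : ∀ c : ℕ, 64 ≤ c → c < 224 → ∃ cr : ℕ → ℝ,
    SWg (1 / 11) (4995 / 10000 - ((c : ℝ) + 1) / 704) (1 / 10000) J (cq c) cr

/-- What we know about the window `j`. -/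
structure Good (J j : ℕ) : Prop where
  g1 : ∀ c : ℕ → ℝ, Wt (ya J) ((J : ℝ) ^ (4996 / 10000 : ℝ)) c →
    |∑ q ∈ Icc 1 (Nat.sqrt J), c q * EE J thP (-2) j q| ≤ (J : ℝ) ^ 2 / Real.log J ^ 3
  g2 : ∀ c : ℕ → ℝ, Wt (xa J) ((J : ℝ) ^ (4996 / 10000 : ℝ)) c →
    |∑ q ∈ Icc 1 (Nat.sqrt J), c q * EE J (RB0 J) 2 j q| ≤ (J : ℝ) ^ 2 / Real.log J ^ 3
  g3 : ∀ c : ℕ → ℝ, Wt (xa J) ((J : ℝ) ^ (4996 / 10000 : ℝ)) c →
    |∑ q ∈ Icc 1 (Nat.sqrt J), c q * EE J (RB1 J) 2 j q| ≤ (J : ℝ) ^ 2 / Real.log J ^ 3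
  g4 : 0.9999 * mu J j ≤ ∑ n ∈ Icc 1 (27 * J ^ 3), thP n * wJ J j n
  g5 : ∑ n ∈ Icc 1 (27 * J ^ 3), thP n * wJ J j n ≤ 1.0001 * mu J j
  g6 : ∑ n ∈ Icc 1 (27 * J ^ 3), RB0 J n * wJ J j n ≤ 0.0813 * mu J j / (3 * Real.log J)
  g7 : ∑ n ∈ Icc 1 (27 * J ^ 3), RB1 J n * wJ J j n ≤ 0.6486 * mu J j / (3 * Real.log J)
  g8 : (sqa J j : ℝ) ≤ (J : ℝ) ^ (23 / 12 : ℝ)
  g9 : (bg0 J j : ℝ) ≤ 0.0009 * mu J j / Real.log J ^ 2
  g10 : (bg1 J j : ℝ) ≤ 0.0107 * mu J j / Real.log J ^ 2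

/-! ### The final statement -/

/-- The primes `p` with `n^3 < p`, `p + 2 < (n+1)^3` such that `p + 2` has at most four prime factors,
all of them larger than `n ^ (1/12)`. -/
def cubeSet4 (n : ℕ) : Set ℕ :=
  {p | p.Prime ∧ n ^ 3 < p ∧ p + 2 < (n + 1) ^ 3 ∧ Ω (p + 2) ≤ 4 ∧
    ∀ q : ℕ, q.Prime → q ∣ p + 2 → n < q ^ 12}

/-- The final statement. -/
def I_final4 : Prop := ∃ c : ℝ, 0 < c ∧ ∃ n0 : ℕ, ∀ n : ℕ, n0 ≤ n →
  c * (n : ℝ) ^ 2 / (Real.log n) ^ 2 ≤ ((cubeSet4 n).ncard : ℝ)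

end Pool.Agent.CA.FP
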