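import Pool.Agent.Lib.MP_d610d0_nt.CA.FP.Defs
import Pool.Agent.Lib.MP_d610d0_nt.CH.S.All

set_option autoImplicit false

/-!
Project CA, section FP: the linear sieve with the finer supersolution (slack `1/1000` instead of `1/200`). The proofs are
those of `CH/S/P/{eps,stL,stU3,stU1,ls}.lean`.
-/

namespace Pool.Agent.CA.FP

open Finset
open Pool.Agent.CH.S

/-- `ε` is small with respect to the supersolution on `s ≤ S`. -/
structure Sm1 (u l U L : ℝ → ℝ) (S ε : ℝ) : Prop where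
  pos : 0 < ε
  le : ε ≤ 1 / 1000
  e1 : ∀ s, 2 ≤ s → s ≤ S → (1 + ε) * (1 / s) * U (s - 1) + ε * u (s - 1) ≤ l s
  e2 : ∀ s, 3 ≤ s → s ≤ S → (1 + ε) * (1 / s) * L (s - 1) + ε * l (s - 1) ≤ u s

def T_eps : Prop := ∀ (u l U L : ℝ → ℝ) (K : ℝ), SS1 u l U L K → ∀ S : ℝ, 3 ≤ S →
  ∃ ε : ℝ, Sm1 u l U L S ε

def T_stL : Prop := ∀ (u l U L : ℝ → ℝ) (K : ℝ), SS1 u l U L K → ∀ (S ε : ℝ), Sm1 u l U L S ε →
  ∀ (a : ℕ) (w D : ℝ), 3 ≤ a → Mer ε a → (a : ℝ) ≤ w → w ^ 2 ≤ D → Real.log D ≤ S * Real.log a →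
  (∀ p : ℕ, p.Prime → a ≤ p → (p : ℝ) < w → UpC u a p (D / p)) → LoC l a w D

def T_stU3 : Prop := ∀ (u l U L : ℝ → ℝ) (K : ℝ), SS1 u l U L K → ∀ (S ε : ℝ), Sm1 u l U L S ε →
  ∀ (a : ℕ) (w D : ℝ), 3 ≤ a → Mer ε a → (a : ℝ) ≤ w → w ^ 3 ≤ D → Real.log D ≤ S * Real.log a →
  (∀ p : ℕ, p.Prime → a ≤ p → (p : ℝ) < w → LoC l a p (D / p)) → UpC u a w D

def T_stU1 : Prop := ∀ (u l U L : ℝ → ℝ) (K : ℝ), SS1 u l U L K → ∀ (S ε : ℝ), Sm1 u l U L S ε →
  ∀ (a : ℕ) (w D : ℝ), 3 ≤ a → Mer ε a → (a : ℝ) ≤ w → w ≤ D → D < w ^ 3 →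
  (∀ w' : ℝ, (a : ℝ) ≤ w' → w' ≤ w → w' ^ 3 = D → UpC u a w' D) → UpC u a w D

def T_ls : Prop := ∀ (u l U L : ℝ → ℝ) (K : ℝ), SS1 u l U L K → ∀ S : ℝ, 3 ≤ S →
  ∃ ε : ℝ, 0 < ε ∧ ∀ a : ℕ, 3 ≤ a → Mer ε a → ∀ D w : ℝ, (a : ℝ) ≤ w → w ≤ D →
    Real.log D ≤ S * Real.log a → UpC u a w D ∧ (w ^ 2 ≤ D → LoC l a w D)



/-- one of the two inequalities -/
private theorem fp_eps_one (ε δ B s A X Y : ℝ) (hε : 0 < ε) (hε4 : ε ≤ 1 / 2000)
    (hB : 0 < B) (hεB : ε ≤ δ / (2002 * B)) (hs : 0 < s) (hA : 0 ≤ A)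
    (h1 : (1 + 1 / 1000) * A ≤ s * X) (hY : Y ≤ B) (hX : δ ≤ X) :
    (1 + ε) * (1 / s) * A + ε * Y ≤ X := by
  have h2 : 0 ≤ 1 / s * A := by positivity
  have h3 : (1 + 1 / 1000) * (1 / s * A) ≤ X := by
    have h4 : (1 + 1 / 1000) * (1 / s * A) = (1 / s) * ((1 + 1 / 1000) * A) := by ring
    rw [h4]
    have h5 := mul_le_mul_of_nonneg_left h1 (by positivity : 0 ≤ 1 / s)
    have h6 : (1 / s) * (s * X) = X := by field_simp
    linarith
  have h7 : ε * Y ≤ δ / 2002 := by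
    have h8 : ε * Y ≤ ε * B := mul_le_mul_of_nonneg_left hY hε.le
    have h9 : ε * B ≤ δ / (2002 * B) * B := mul_le_mul_of_nonneg_right hεB hB.le
    have h10 : δ / (2002 * B) * B = δ / 2002 := by field_simp
    linarith
  have h11 : (1 + ε) * (1 / s) * A = (1 + ε) * (1 / s * A) := by ring
  rw [h11]
  have h12 : ε * (1 / s * A) ≤ 1 / 2000 * (1 / s * A) := mul_le_mul_of_nonneg_right hε4 h2
  linarith

theorem q_eps : T_eps := by
  intro u l U L K h S hS
  have hδ : 0 < min (l S) (u S) := lt_min (h.l_pos S (by linarith)) (h.u_pos S (by linarith))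
  have hB : 0 < max (u 1) (l 2) := lt_max_of_lt_left (h.u_pos 1 le_rfl)
  have hε : 0 < min (1 / 2000) (min (l S) (u S) / (2002 * max (u 1) (l 2))) :=
    lt_min (by norm_num) (by positivity)
  refine ⟨min (1 / 2000) (min (l S) (u S) / (2002 * max (u 1) (l 2))), hε, ?_, ?_, ?_⟩
  · exact (min_le_left _ _).trans (by norm_num)
  · intro s hs hsS
    refine fp_eps_one _ _ _ s _ _ _ hε (min_le_left _ _) hB (min_le_right _ _) (by linarith)
      (h.U_nn _ (by linarith)) (h.low s hs) ?_ ?_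
    · exact (h.u_anti 1 (s - 1) le_rfl (by linarith)).trans (le_max_left _ _)
    · exact (min_le_left _ _).trans (h.l_anti s S hs hsS)
  · intro s hs hsS
    refine fp_eps_one _ _ _ s _ _ _ hε (min_le_left _ _) hB (min_le_right _ _) (by linarith)
      (h.L_nn _ (by linarith)) (h.up s hs) ?_ ?_
    · exact (h.l_anti 2 (s - 1) le_rfl (by linarith)).trans (le_max_right _ _)
    · exact (min_le_right _ _).trans (h.u_anti s S (by linarith) hsS)




theorem q_stL (hps : S_ps) (hexp : S_exp) (htel : S_tel) : T_stL := by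
  intro u l U L K hSS S ε hSm a w D ha hMer haw hwD hDS hUp
  have ha3 : (3 : ℝ) ≤ a := by exact_mod_cast ha
  have hw3 : (3 : ℝ) ≤ w := le_trans ha3 haw
  have hw0 : 0 < w := by linarith
  have hlw : 0 < Real.log w := Real.log_pos (by linarith)
  have hla : 0 < Real.log a := Real.log_pos (by linarith)
  have hwD1 : w ≤ D := by nlinarith
  have hD0 : 0 < D := by linarith
  have hlogD : 2 * Real.log w ≤ Real.log D := by
    have h := Real.log_le_log (by positivity : (0 : ℝ) < w ^ 2) hwD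
    rw [Real.log_pow] at h
    exact_mod_cast h
  have hs2 : 2 ≤ Real.log D / Real.log w := by
    rw [le_div_iff₀ hlw]; exact hlogD
  have hS0 : 0 < S := by
    by_contra h
    push Not at h
    nlinarith
  have hsS : Real.log D / Real.log w ≤ S := by
    rw [div_le_iff₀ hlw]
    refine le_trans hDS ?_
    exact mul_le_mul_of_nonneg_left (Real.log_le_log (by linarith) haw) hS0.le
  obtain ⟨hV, -, -, hsum, -⟩ := htel a ha
  unfold LoC
  set s := Real.log D / Real.log w with hs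
  have hps1 := hps a w D ε u U ha haw hwD1 hSm.pos.le hMer
    (fun x y hx hxy => hSS.u_anti x y (by linarith) hxy)
    (fun x hx => (hSS.u_pos x (by linarith)).le)
    (fun x y hx hxy => hSS.U_int x y (by linarith) hxy)
    (fun x hx => hSS.U_nn x (by linarith))
  rw [← hs] at hps1
  have he1 := hSm.e1 s hs2 hsS
  have hps2 : ∑ p ∈ Pr a ⌈w⌉₊, gd p * V a p * u (Real.log D / Real.log p - 1)
      ≤ V a ⌈w⌉₊ * l s :=
    le_trans hps1 (mul_le_mul_of_nonneg_left he1 (hV _).1.le)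
  rw [hexp a gd ⌈w⌉₊ false D]
  have hle : ∑ p ∈ Pr a ⌈w⌉₊, (if (false = true → (p : ℝ) ^ 3 < D) then
      gd p * th a gd p (!false) (D / p) else 0) ≤
      ∑ p ∈ Pr a ⌈w⌉₊, (gd p * V a p + gd p * V a p * u (Real.log D / Real.log p - 1)) := by
    apply Finset.sum_le_sum
    intro p hp
    rw [if_pos (fun h => absurd h (by decide))]
    unfold Pr at hp
    rw [mem_filter, mem_range] at hp
    obtain ⟨hpw, hpp, hap⟩ := hp
    have hpw' : (p : ℝ) < w := Nat.lt_ceil.1 hpw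
    have hp3 : (3 : ℝ) ≤ p := by exact_mod_cast le_trans ha hap
    have hg : 0 ≤ gd p := by
      unfold gd
      apply div_nonneg zero_le_one
      linarith
    have h1 := hUp p hpp hap hpw'
    unfold UpC at h1
    rw [Nat.ceil_natCast, Real.log_div hD0.ne' (by linarith), sub_div,
      div_self (Real.log_pos (by linarith)).ne'] at h1
    calc gd p * th a gd p (!false) (D / p)
        ≤ gd p * (V a p * (1 + u (Real.log D / Real.log p - 1))) :=
          mul_le_mul_of_nonneg_left h1 hg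
      _ = _ := by ring
  rw [sum_add_distrib, hsum] at hle
  refine le_trans ?_ (sub_le_sub_left hle 1)
  have : V a ⌈w⌉₊ * (1 - l s) = V a ⌈w⌉₊ - V a ⌈w⌉₊ * l s := by ring
  linarith




private theorem fp_stU3_mem {a : ℕ} {w : ℝ} {p : ℕ} (hp : p ∈ Pr a ⌈w⌉₊) :
    p.Prime ∧ a ≤ p ∧ (p : ℝ) < w := by
  unfold Pr at hp
  rw [Finset.mem_filter, Finset.mem_range] at hp
  exact ⟨hp.2.1, hp.2.2, Nat.lt_ceil.1 hp.1⟩

theorem q_stU3 (hps : S_ps) (hexp : S_exp) (htel : S_tel) : T_stU3 := by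
  intro u l U L K hSS S ε hSm a w D ha hMer haw hwD hlogD hyp
  have hw3 : (3 : ℝ) ≤ w := le_trans (by exact_mod_cast ha) haw
  have ha3 : (3 : ℝ) ≤ (a : ℝ) := by exact_mod_cast ha
  have hlogw : 0 < Real.log w := Real.log_pos (by linarith)
  have hloga : 0 < Real.log a := Real.log_pos (by linarith)
  have hwleD : w ≤ D := by
    refine le_trans ?_ hwD
    nlinarith [mul_nonneg (by linarith : (0 : ℝ) ≤ w) (by linarith : (0 : ℝ) ≤ w)]
  have hDpos : 0 < D := by linarith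
  have hlogwa : Real.log a ≤ Real.log w := Real.log_le_log (by linarith) haw
  have hlog3 : 3 * Real.log w ≤ Real.log D := by
    have h := Real.log_le_log (by positivity) hwD
    rw [Real.log_pow] at h
    exact_mod_cast h
  have hSpos : 0 < S := by
    by_contra hcon
    have h1 : S * Real.log a ≤ 0 := mul_nonpos_of_nonpos_of_nonneg (not_lt.1 hcon) hloga.le
    linarith
  have hs3 : 3 ≤ Real.log D / Real.log w := by
    rw [le_div_iff₀ hlogw]; exact hlog3
  have hsS : Real.log D / Real.log w ≤ S := by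
    rw [div_le_iff₀ hlogw]
    exact le_trans hlogD (mul_le_mul_of_nonneg_left hlogwa hSpos.le)
  have hsum := hps a w D ε l L ha haw hwleD hSm.pos.le hMer
    (fun x y hx hxy => hSS.l_anti x y (by linarith) hxy)
    (fun x hx => (hSS.l_pos x (by linarith)).le)
    (fun x y hx hxy => hSS.L_int x y (by linarith) hxy)
    (fun x hx => hSS.L_nn x (by linarith))
  obtain ⟨hV, _, _, hT, _⟩ := htel a ha
  have he2 := hSm.e2 _ hs3 hsS
  unfold UpC
  rw [hexp a gd ⌈w⌉₊ true D]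
  have hterm : ∑ p ∈ Pr a ⌈w⌉₊, (gd p * V a p - gd p * V a p * l (Real.log D / Real.log p - 1)) ≤
      ∑ p ∈ Pr a ⌈w⌉₊,
        (if (true = true → (p : ℝ) ^ 3 < D) then gd p * th a gd p (!true) (D / p) else 0) := by
    apply Finset.sum_le_sum
    intro p hp
    obtain ⟨hpp, hap, hpw⟩ := fp_stU3_mem hp
    have hp3 : (3 : ℝ) ≤ (p : ℝ) := le_trans ha3 (by exact_mod_cast hap)
    have hcond : true = true → (p : ℝ) ^ 3 < D := by
      intro _
      refine lt_of_lt_of_le ?_ hwD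
      exact pow_lt_pow_left₀ hpw (by linarith) (by norm_num)
    rw [if_pos hcond]
    have hlo := hyp p hpp hap hpw
    unfold LoC at hlo
    rw [Nat.ceil_natCast] at hlo
    have hlogp : 0 < Real.log (p : ℝ) := Real.log_pos (by linarith)
    have hdiv : Real.log (D / p) / Real.log (p : ℝ) = Real.log D / Real.log (p : ℝ) - 1 := by
      rw [Real.log_div (by linarith) (by linarith)]
      field_simp
    rw [hdiv] at hlo
    have hg : 0 ≤ gd p := by
      unfold gd
      apply div_nonneg zero_le_one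
      linarith
    have := mul_le_mul_of_nonneg_left hlo hg
    calc gd p * V a p - gd p * V a p * l (Real.log D / Real.log p - 1)
        = gd p * (V a p * (1 - l (Real.log D / Real.log p - 1))) := by ring
      _ ≤ gd p * th a gd p false (D / p) := this
      _ = gd p * th a gd p (!true) (D / p) := rfl
  rw [Finset.sum_sub_distrib, hT] at hterm
  have hVm := (hV ⌈w⌉₊).1
  have hfin : V a ⌈w⌉₊ * ((1 + ε) * (1 / (Real.log D / Real.log w)) *
      L (Real.log D / Real.log w - 1) + ε * l (Real.log D / Real.log w - 1)) ≤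
      V a ⌈w⌉₊ * u (Real.log D / Real.log w) := mul_le_mul_of_nonneg_left he2 hVm.le
  have hr : V a ⌈w⌉₊ * (1 + u (Real.log D / Real.log w)) =
      V a ⌈w⌉₊ + V a ⌈w⌉₊ * u (Real.log D / Real.log w) := by ring
  rw [hr]
  linarith




private theorem fp_stU1_mem (a w p : ℕ) : p ∈ Pr a w ↔ p < w ∧ p.Prime ∧ a ≤ p := by
  rw [Pr, mem_filter, mem_range]

private theorem fp_stU1_case1 (hexp : S_exp) (a m : ℕ) (D : ℝ) (h : D ≤ (a : ℝ) ^ 3) :
    th a gd m true D = 1 := by
  rw [hexp a gd m true D]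
  have h0 : ∑ p ∈ Pr a m, (if (true = true → (p : ℝ) ^ 3 < D) then gd p * th a gd p (!true) (D / p)
      else 0) = 0 := by
    apply sum_eq_zero
    intro p hp
    rw [fp_stU1_mem] at hp
    rw [if_neg]
    intro h1
    have h2 := h1 rfl
    have h3 : (a : ℝ) ≤ p := by exact_mod_cast hp.2.2
    have h4 : (a : ℝ) ^ 3 ≤ (p : ℝ) ^ 3 := pow_le_pow_left₀ (Nat.cast_nonneg a) h3 3
    linarith
  rw [h0, sub_zero]

private theorem fp_stU1_case2 (hexp : S_exp) (a m m' : ℕ) (D : ℝ) (hm : m' ≤ m)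
    (h : ∀ p : ℕ, m' ≤ p → D ≤ (p : ℝ) ^ 3) :
    th a gd m true D = th a gd m' true D := by
  rw [hexp a gd m true D, hexp a gd m' true D]
  congr 1
  symm
  apply sum_subset
  · intro p hp
    rw [fp_stU1_mem] at hp ⊢
    exact ⟨lt_of_lt_of_le hp.1 hm, hp.2⟩
  · intro p hp hp'
    rw [fp_stU1_mem] at hp hp'
    rw [if_neg]
    intro h1
    have h2 := h1 rfl
    have h3 : m' ≤ p := by
      by_contra hlt
      exact hp' ⟨by omega, hp.2⟩
    have := h p h3
    linarith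

theorem q_stU1 (hexp : S_exp) (htel : S_tel) : T_stU1 := by
  intro u l U L K hSS S ε hSm a w D ha hMer haw hwD hD3 hyp
  obtain ⟨hV, hVmul, -, -, -⟩ := htel a ha
  have ha3 : (3 : ℝ) ≤ a := by exact_mod_cast ha
  have hw3 : (3 : ℝ) ≤ w := le_trans ha3 haw
  have hlw : 0 < Real.log w := Real.log_pos (by linarith)
  have hlwD : Real.log w ≤ Real.log D := Real.log_le_log (by linarith) hwD
  have hlD : 0 < Real.log D := lt_of_lt_of_le hlw hlwD
  have hlD3 : Real.log D ≤ 3 * Real.log w := by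
    have h1 : Real.log D ≤ Real.log (w ^ 3) := Real.log_le_log (by linarith) hD3.le
    rw [Real.log_pow] at h1
    exact_mod_cast h1
  have hs1 : 1 ≤ Real.log D / Real.log w := by
    rw [le_div_iff₀ hlw]; linarith
  have hlD3' : Real.log D < 3 * Real.log w := by
    have h1 : Real.log D < Real.log (w ^ 3) := Real.log_lt_log (by linarith) hD3
    rw [Real.log_pow] at h1
    exact_mod_cast h1
  have hs3 : Real.log D / Real.log w < 3 := by
    rw [div_lt_iff₀ hlw]; linarith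
  have hmid := hSS.mid _ hs1 hs3
  have hu3 := hSS.u_pos 3 (by norm_num)
  have hK3 := hSS.K3
  have hε0 := hSm.pos
  have hε1 := hSm.le
  have hKpos : 0 < K := by nlinarith
  have hKs : K / (Real.log D / Real.log w) = K * Real.log w / Real.log D := by
    field_simp
  rw [hKs] at hmid
  have hVm := hV ⌈w⌉₊
  have ham : a ≤ ⌈w⌉₊ := by
    have h1 : (a : ℝ) ≤ (⌈w⌉₊ : ℝ) := le_trans haw (Nat.le_ceil w)
    exact_mod_cast h1
  unfold UpC
  rcases le_or_gt D ((a : ℝ) ^ 3) with hc | hc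
  · rw [fp_stU1_case1 hexp a _ D hc]
    have h1 := hMer a le_rfl w haw
    have hla : Real.log D ≤ 3 * Real.log a := by
      have h2 : Real.log D ≤ Real.log ((a : ℝ) ^ 3) := Real.log_le_log (by linarith) hc
      rw [Real.log_pow] at h2
      exact_mod_cast h2
    have hK : 3 * (1 + ε) ≤ K := by nlinarith
    have hla0 : 0 < Real.log a := Real.log_pos (by linarith)
    have h3 : (1 + ε) * Real.log D ≤ (1 + ε) * (V a ⌈w⌉₊ * K * Real.log w) := by
      calc (1 + ε) * Real.log D ≤ (1 + ε) * (3 * Real.log a) :=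
            mul_le_mul_of_nonneg_left hla (by linarith)
        _ = 3 * (1 + ε) * Real.log a := by ring
        _ ≤ K * Real.log a := mul_le_mul_of_nonneg_right hK hla0.le
        _ ≤ K * ((1 + ε) * V a ⌈w⌉₊ * Real.log w) := mul_le_mul_of_nonneg_left h1 hKpos.le
        _ = _ := by ring
    have h4 : Real.log D ≤ V a ⌈w⌉₊ * K * Real.log w := le_of_mul_le_mul_left h3 (by linarith)
    calc (1 : ℝ) ≤ V a ⌈w⌉₊ * K * Real.log w / Real.log D := by
          rw [le_div_iff₀ hlD]; linarith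
      _ = V a ⌈w⌉₊ * (K * Real.log w / Real.log D) := by ring
      _ ≤ _ := mul_le_mul_of_nonneg_left hmid hVm.1.le
  · have hD0 : 0 < D := by linarith
    have hw'0 : 0 < D ^ (1 / 3 : ℝ) := Real.rpow_pos_of_pos hD0 _
    have hw'3 : (D ^ (1 / 3 : ℝ)) ^ 3 = D := by
      rw [← Real.rpow_natCast, ← Real.rpow_mul hD0.le]
      norm_num
    generalize D ^ (1 / 3 : ℝ) = w' at hw'0 hw'3
    have haw' : (a : ℝ) ≤ w' := by
      by_contra hlt
      push Not at hlt
      have : w' ^ 3 < (a : ℝ) ^ 3 := pow_lt_pow_left₀ hlt hw'0.le (by norm_num)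
      linarith
    have hw'w : w' ≤ w := by
      by_contra hlt
      push Not at hlt
      have : w ^ 3 < w' ^ 3 := pow_lt_pow_left₀ hlt (by linarith) (by norm_num)
      linarith
    have hmm : ⌈w'⌉₊ ≤ ⌈w⌉₊ := Nat.ceil_mono hw'w
    have ham' : a ≤ ⌈w'⌉₊ := by
      have h1 : (a : ℝ) ≤ (⌈w'⌉₊ : ℝ) := le_trans haw' (Nat.le_ceil w')
      exact_mod_cast h1
    have hth : th a gd ⌈w⌉₊ true D = th a gd ⌈w'⌉₊ true D := by
      apply fp_stU1_case2 hexp a _ _ D hmm
      intro p hp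
      rw [← hw'3]
      apply pow_le_pow_left₀ hw'0.le
      exact Nat.ceil_le.1 hp
    have hup := hyp w' haw' hw'w hw'3
    unfold UpC at hup
    have hw'3' : (3 : ℝ) ≤ w' := le_trans ha3 haw'
    have hlw' : 0 < Real.log w' := Real.log_pos (by linarith)
    have hlDw' : Real.log D = 3 * Real.log w' := by
      rw [← hw'3, Real.log_pow]
      norm_num
    have h3 : Real.log D / Real.log w' = 3 := by
      rw [hlDw']; field_simp
    rw [h3] at hup
    have hVm' := hV ⌈w'⌉₊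
    have hcomp : V a ⌈w'⌉₊ * Real.log w' ≤ (1 + ε) * V a ⌈w⌉₊ * Real.log w := by
      rcases le_or_gt ((⌈w'⌉₊ : ℝ)) w with hc1 | hc1
      · have h4 := hMer ⌈w'⌉₊ ham' w hc1
        have h5 : Real.log w' ≤ Real.log (⌈w'⌉₊ : ℝ) := Real.log_le_log hw'0 (Nat.le_ceil w')
        rw [hVmul ⌈w'⌉₊ ⌈w⌉₊ ham' hmm]
        calc V a ⌈w'⌉₊ * Real.log w' ≤ V a ⌈w'⌉₊ * ((1 + ε) * V ⌈w'⌉₊ ⌈w⌉₊ * Real.log w) :=
              mul_le_mul_of_nonneg_left (le_trans h5 h4) hVm'.1.le
          _ = _ := by ring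
      · have h4 : ⌈w⌉₊ ≤ ⌈w'⌉₊ := Nat.ceil_le.2 hc1.le
        have h5 : ⌈w'⌉₊ = ⌈w⌉₊ := le_antisymm hmm h4
        rw [h5]
        have h6 : Real.log w' ≤ Real.log w := Real.log_le_log hw'0 hw'w
        calc V a ⌈w⌉₊ * Real.log w' ≤ V a ⌈w⌉₊ * Real.log w :=
              mul_le_mul_of_nonneg_left h6 hVm.1.le
          _ ≤ (1 + ε) * V a ⌈w⌉₊ * Real.log w := by
              apply mul_le_mul_of_nonneg_right _ hlw.le
              nlinarith [hVm.1]
    rw [hth]
    have h7 : V a ⌈w'⌉₊ * (1 + u 3) * Real.log D ≤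
        V a ⌈w⌉₊ * K * Real.log w := by
      have h8 : 3 * (1 + ε) * (1 + u 3) ≤ K := by nlinarith
      calc V a ⌈w'⌉₊ * (1 + u 3) * Real.log D =
            3 * (1 + u 3) * (V a ⌈w'⌉₊ * Real.log w') := by rw [hlDw']; ring
        _ ≤ 3 * (1 + u 3) * ((1 + ε) * V a ⌈w⌉₊ * Real.log w) :=
              mul_le_mul_of_nonneg_left hcomp (by linarith)
        _ = (3 * (1 + ε) * (1 + u 3)) * (V a ⌈w⌉₊ * Real.log w) := by ring
        _ ≤ K * (V a ⌈w⌉₊ * Real.log w) :=
              mul_le_mul_of_nonneg_right h8 (mul_nonneg hVm.1.le hlw.le)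
        _ = _ := by ring
    calc th a gd ⌈w'⌉₊ true D ≤ V a ⌈w'⌉₊ * (1 + u 3) := hup
      _ ≤ V a ⌈w⌉₊ * K * Real.log w / Real.log D := by
          rw [le_div_iff₀ hlD]; exact h7
      _ = V a ⌈w⌉₊ * (K * Real.log w / Real.log D) := by ring
      _ ≤ _ := mul_le_mul_of_nonneg_left hmid hVm.1.le




theorem q_ls (heps : T_eps) (hstL : T_stL) (hstU3 : T_stU3) (hstU1 : T_stU1) : T_ls := by
  intro u l U L K hSS S hS
  obtain ⟨ε, hSm⟩ := heps u l U L K hSS S hS
  refine ⟨ε, hSm.pos, ?_⟩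
  intro a ha hMer
  have ha3 : (3 : ℝ) ≤ (a : ℝ) := by exact_mod_cast ha
  have main : ∀ m : ℕ, ∀ w D : ℝ, ⌈w⌉₊ ≤ m → (a : ℝ) ≤ w → w ≤ D →
      Real.log D ≤ S * Real.log a → UpC u a w D ∧ (w ^ 2 ≤ D → LoC l a w D) := by
    intro m
    induction m with
    | zero =>
      intro w D hm haw
      have h1 : w ≤ 0 := by
        have := Nat.ceil_le.1 hm
        simpa using this
      linarith
    | succ m ih =>
      intro w D hm haw hwD hlog
      have hsub : ∀ p : ℕ, p.Prime → a ≤ p → ∀ w' : ℝ, w' ≤ w → (p : ℝ) < w' →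
          (p : ℝ) ^ 2 ≤ D →
          UpC u a p (D / p) ∧ ((p : ℝ) ^ 2 ≤ D / p → LoC l a p (D / p)) := by
        intro p hp hap w' hw' hpw hp2
        have hp0 : (0 : ℝ) < p := by exact_mod_cast hp.pos
        have hp1 : (1 : ℝ) ≤ p := by exact_mod_cast hp.one_le
        have hD0 : 0 < D := by linarith
        have h1 : p < ⌈w⌉₊ := Nat.lt_ceil.2 (lt_of_lt_of_le hpw hw')
        refine ih (p : ℝ) (D / p) ?_ (by exact_mod_cast hap) ?_ ?_
        · rw [Nat.ceil_natCast]
          omega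
        · rw [le_div_iff₀ hp0]
          nlinarith
        · refine le_trans ?_ hlog
          apply Real.log_le_log (by positivity)
          rw [div_le_iff₀ hp0]
          nlinarith
      have hup : ∀ w' : ℝ, (a : ℝ) ≤ w' → w' ≤ w → w' ^ 3 ≤ D → UpC u a w' D := by
        intro w' haw' hw' hw3
        refine hstU3 u l U L K hSS S ε hSm a w' D ha hMer haw' hw3 hlog ?_
        intro p hp hap hpw
        have hp0 : (0 : ℝ) < p := by exact_mod_cast hp.pos
        have hp1 : (1 : ℝ) ≤ p := by exact_mod_cast hp.one_le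
        have h3 : (p : ℝ) ^ 3 ≤ D :=
          (pow_le_pow_left₀ hp0.le hpw.le 3).trans hw3
        have h2 : (p : ℝ) ^ 2 ≤ D :=
          (pow_le_pow_right₀ hp1 (by norm_num)).trans h3
        refine (hsub p hp hap w' hw' hpw h2).2 ?_
        rw [le_div_iff₀ hp0]
        calc (p : ℝ) ^ 2 * p = (p : ℝ) ^ 3 := by ring
          _ ≤ D := h3
      constructor
      · rcases le_or_gt (w ^ 3) D with h | h
        · exact hup w haw le_rfl h
        · refine hstU1 u l U L K hSS S ε hSm a w D ha hMer haw hwD h ?_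
          intro w' haw' hw' hw3
          exact hup w' haw' hw' hw3.le
      · intro hw2
        refine hstL u l U L K hSS S ε hSm a w D ha hMer haw hw2 hlog ?_
        intro p hp hap hpw
        have hp0 : (0 : ℝ) < p := by exact_mod_cast hp.pos
        exact (hsub p hp hap w le_rfl hpw
          ((pow_le_pow_left₀ hp0.le hpw.le 2).trans hw2)).1
  intro D w haw hwD hlog
  exact main ⌈w⌉₊ w D le_rfl haw hwD hlog


/-- The linear sieve for the finer supersolution. -/
theorem q_LS : T_ls :=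
  q_ls q_eps (q_stL (p_ps p_abel p_tel) p_exp p_tel) (q_stU3 (p_ps p_abel p_tel) p_exp p_tel)
    (q_stU1 p_exp p_tel)

end Pool.Agent.CA.FP
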