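import Pool.Agent.Lib.MP_d610d0_nt.CA.SC.Main
import Pool.Agent.Lib.MP_d610d0_nt.CA.FP.SC.lwS
import Pool.Agent.Lib.MP_d610d0_nt.CA.FP.SC.CMS

set_option autoImplicit false

/-!
Project CA, section FP: small conductors and comparison of the windows for products of at least five primes,
the first one small.
-/

namespace Pool.Agent.CA.FP

open Finset Filter
open Pool.Agent.CH (wJ wL)
open Pool.Agent.CA.SC

theorem h_bxS : R_bxS := p_bxS h_bxs h_prk Pool.Agent.CH.D.p_spc

theorem h_CMS : R_CMS := p_CMS p_dyb h_bxS Pool.Agent.CH.D.p_spc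

theorem h_lwS : R_lwS := p_lwS Pool.Agent.CH.D.h_pwp

/-- Small conductors, boxes with a small first prime. -/
theorem p_SS : I_SS := by
  intro k lo hi hbox A B
  obtain ⟨E0, hE⟩ := h_CMS k lo hi hbox (A + 1) B
  filter_upwards [hE E0 le_rfl, h_lwS k lo hi hbox (A + 1 + E0) B E0, eventually_ge_atTop 3]
    with J h1 h2 h3
  intro r χ hr hrB hχ j hj
  have hX := h1 j r χ hj (by omega) hrB hχ
  have hY := h2 j r χ hj hr hrB hχ
  exact SB_fin A E0 J (by omega) (SB_L J h3) _ _ _
    (SB_split (fun n => bx (k + 1) (lo J) (hi J) n) J j E0 χ) hX hY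

private theorem CS_one (n : ℕ) : (1 : DirichletCharacter ℂ 1) (n : ZMod 1) = 1 :=
  MulChar.one_apply (isUnit_of_subsingleton _)

/-- Comparison with the long windows, boxes with a small first prime. -/
theorem p_CS : I_CS := by
  intro k lo hi hb A
  obtain ⟨E0, hE0⟩ := h_CMS k lo hi hb A 0
  refine ⟨E0, fun E hE => ?_⟩
  filter_upwards [hE0 E hE] with J hJ j hj
  have h1 := hJ j 1 1 hj (le_refl _) (by rw [pow_zero]; norm_num)
    DirichletCharacter.isPrimitive_one_level_one
  have h2 : ∑ n ∈ Icc 1 (27 * J ^ 3), (bx (k + 1) (lo J) (hi J) n : ℂ) *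
      ((1 : DirichletCharacter ℂ 1) (n : ZMod 1) * dW ((Real.log J) ^ E) J j n) =
      ((2 * (J : ℝ) * ∑ n ∈ Icc 1 (27 * J ^ 3), bx (k + 1) (lo J) (hi J) n * wJ J j n
        - (Real.log J) ^ E * ∑ n ∈ Icc 1 (27 * J ^ 3),
          bx (k + 1) (lo J) (hi J) n * wL ((Real.log J) ^ E) j n : ℝ) : ℂ) := by
    rw [Finset.mul_sum, Finset.mul_sum, ← Finset.sum_sub_distrib, Complex.ofReal_sum]
    refine Finset.sum_congr rfl (fun n _ => ?_)
    rw [CS_one, one_mul]
    unfold dW
    rw [← Complex.ofReal_mul]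
    congr 1
    ring
  rw [h2, Complex.norm_real, Real.norm_eq_abs] at h1
  exact h1

end Pool.Agent.CA.FP
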