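import Pool.Agent.Lib.MP_d610d0_nt.CA.FP.Asm
import Pool.Agent.Lib.MP_d610d0_nt.CA.SC.Main
import Pool.Agent.Lib.MP_d610d0_nt.CA.FP.SC
import Pool.Agent.Lib.MP_d610d0_nt.CA.FP.P.tab
import Pool.Agent.Lib.MP_d610d0_nt.CA.FP.P.parg
import Pool.Agent.Lib.MP_d610d0_nt.CA.FP.P.sg
import Pool.Agent.Lib.MP_d610d0_nt.CA.FP.P.WW
import Pool.Agent.Lib.MP_d610d0_nt.CA.FP.P.mvg
import Pool.Agent.Lib.MP_d610d0_nt.CA.FP.P.VA
import Pool.Agent.Lib.MP_d610d0_nt.CA.FP.P.numF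
import Pool.Agent.Lib.MP_d610d0_nt.CA.FP.P.cor
import Pool.Agent.Lib.MP_d610d0_nt.CA.FP.P.redA
import Pool.Agent.Lib.MP_d610d0_nt.CA.FP.P.rb1
import Pool.Agent.Lib.MP_d610d0_nt.CA.FP.P.rb2
import Pool.Agent.Lib.MP_d610d0_nt.CA.FP.P.redB
import Pool.Agent.Lib.MP_d610d0_nt.CA.FP.P.m1A
import Pool.Agent.Lib.MP_d610d0_nt.CA.FP.P.bxT
import Pool.Agent.Lib.MP_d610d0_nt.CA.FP.P.cellA
import Pool.Agent.Lib.MP_d610d0_nt.CA.FP.P.winG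
import Pool.Agent.Lib.MP_d610d0_nt.CA.FP.P.ptwA
import Pool.Agent.Lib.MP_d610d0_nt.CA.FP.P.nA0
import Pool.Agent.Lib.MP_d610d0_nt.CA.FP.P.nA1
import Pool.Agent.Lib.MP_d610d0_nt.CA.FP.P.nE1
import Pool.Agent.Lib.MP_d610d0_nt.CA.FP.P.nE0
import Pool.Agent.Lib.MP_d610d0_nt.CA.FP.P.lwA0
import Pool.Agent.Lib.MP_d610d0_nt.CA.FP.P.lwA1
import Pool.Agent.Lib.MP_d610d0_nt.CA.FP.P.msA
import Pool.Agent.Lib.MP_d610d0_nt.CA.FP.P.gwA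
import Pool.Agent.Lib.MP_d610d0_nt.CA.FP.P.seA
import Pool.Agent.Lib.MP_d610d0_nt.CA.FP.P.bgA
import Pool.Agent.Lib.MP_d610d0_nt.CA.FP.P.sqA
import Pool.Agent.Lib.MP_d610d0_nt.CA.FP.P.swG
import Pool.Agent.Lib.MP_d610d0_nt.CA.FP.P.rrA
import Pool.Agent.Lib.MP_d610d0_nt.CA.FP.P.tqW
import Pool.Agent.Lib.MP_d610d0_nt.CA.FP.P.tqA
import Pool.Agent.Lib.MP_d610d0_nt.CA.FP.P.loA
import Pool.Agent.Lib.MP_d610d0_nt.CA.FP.P.upA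
import Pool.Agent.Lib.MP_d610d0_nt.CA.FP.P.ptA
import Pool.Agent.Lib.MP_d610d0_nt.CA.FP.P.oneA
import Pool.Agent.Lib.MP_d610d0_nt.CA.FP.P.goodA
import Pool.Agent.Lib.MP_d610d0_nt.CA.FP.P.finA

set_option autoImplicit false

/-!
Project CA, section FP: the final theorem.
-/

namespace Pool.Agent.CA.FP

/-- For every `n ≥ n0` there are at least `c n^2/(log n)^2` primes `p` with `n^3 < p`, `p + 2 < (n+1)^3` such that
`p + 2` has at most four prime factors, all of them larger than `n ^ (1/12)`. -/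
theorem final4 : I_final4 :=
  of_pieces (LC.main_LL SC.main_dec) SC.main_SL SC.main_CL LC.main_LB SC.main_SB SC.main_CB p_SS p_CS
    p_tab p_parg p_sg p_WW p_mvg p_VA p_numF p_cor p_redA p_rb1 p_rb2 p_redB p_m1A p_bxT p_cellA p_winG
    p_ptwA p_nA0 p_nA1 p_nE1 p_nE0 p_lwA0 p_lwA1 p_msA p_gwA p_seA p_bgA p_sqA p_swG p_rrA p_tqW p_tqA
    p_loA p_upA p_ptA p_oneA p_goodA p_finA

end Pool.Agent.CA.FP
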