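import Pool.Agent.Lib.MP_d610d0_nt.CA.FP.Defs

set_option autoImplicit false

/-!
Project CA, section FP (`P_4` in every window): statements of the pieces with complete proofs in words. `R_x` is a
conclusion, `S_x` the statement to be proved. Each piece is proved in its own file `CA/FP/P/x.lean` as
`theorem p_x : S_x`. Already proved: `q_LS : T_ls` (`FP/LS.lean`: the linear sieve for `SS1`), `q_fl : T_fl` (`FP/FL.lean`: the
fundamental lemma with errors `1/10000`), `p_LS` (`FP/P/LBs.lean`: I_LS).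

Many pieces are adaptations of pieces of the projects CH and CA/SV; the file to copy from is named. Notation:
`L = log J`, `x = (j + 1/2)^3` (`J^3 ≤ x ≤ 15.7 J^3`), `mu = mu J j = x/(2J)` (`J^2/2 ≤ mu ≤ 8 J^2`), `za = J^(1/11)`,
`ya = J^(7/22)`, `xa = J^(3/16)`; every power of `L` is at most `J^(1/1000)` for large `J`.
-/

namespace Pool.Agent.CA.FP

open Finset Filter
open scoped ArithmeticFunction.Omega
open Pool.Agent.MP89da58 (tri primChars)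
open Pool.Agent.CH (zJ wJ wL Rough VV Wt dsum thP EE Rk)
open Pool.Agent.CH.F (mu)
open Pool.Agent.CH.M2 (Sp TS S_tup1 S_tup2 S_log2 S_mer S_sh)
open Pool.Agent.CH.D (FL FT Sf R_grp R_cfs R_pp R_m1a)
open Pool.Agent.CA.SV (Us Yc GS WS cl De Rc R_tup R_sel R_cls R_gt R_tl)

/-! ### A. Sieve weights -/

/-- The sieve functions. -/
def R_tab : Prop := ∃ U L : ℝ → ℝ, SS1 uS lS U L (35724 / 10000)

/-- [FP tab] (kernel computations; compare `CH/S/P/ss.lean`, where step functions are used). `uS`, `lS` are piecewise linear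
(right continuous) with the nodes `i/20`; on the cell `[i/20, (i+1)/20)` `uS` goes linearly from `uN i` to `uR i`, `lS` from
`lN i` to `lN (i+1)`. Facts on the tables (checked by a program; prove them with `decide +kernel` for natural numbers, `tu`, `tU`
have the indices `i - 20`, `tl`, `tL` the indices `i - 40`): for `20 ≤ i < 160`: `a_i ≥ b_i ≥ a_(i+1) > 0`, where `a_i = tu[i-20]`,
`b_i = a_(i+1)` except `b_59 = 190800`; `tU_i = tU_(i+1) + a_i + b_i`, `tU_160 = 79 * 30 = 2370`; `tL_i = tL_(i+1) + l_i + l_(i+1)` for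
`40 ≤ i < 160`, `tL_160 = 2370`; `1001 * tU_(i-20) ≤ 2000 i l_i` for `40 ≤ i ≤ 160`, `1001 * tL_(i-20) ≤ 2000 i a_i` for
`60 ≤ i ≤ 160`, `1001 * tU_(i-20), 1001 * tL_(i-20) ≤ 2000 i * 30` for `160 < i < 180`; `3572400 * 20 ≤ i (10^6 + a_i)` for
`20 ≤ i < 60`, `3572400/3 ≤ 10^6 + 190800`, `3 * 1001 (10^6 + a_60) ≤ 3572400 * 1000`.
Beyond `160`: `uN i = lN i = tS i` (also for `i = 160`), constant on blocks of 20 nodes, halved from block to block; put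
`T i = tS i * (79/40 - (i % 20)/20)`; then `T i = T (i+1) + (tS i + tS (i+1))/40` for `i ≥ 160`, `T 160 = 2370/(40 * 10^6)`, and
`(1 + 1/1000) T (i-20) ≤ (i/20) tS i` for `i ≥ 180` (`tS (i-20) = 2 tS i`, `3.95 * 1.001 ≤ 9`).
Functions: with node values `U_i = tU_i/(40 * 10^6)` for `20 ≤ i ≤ 160`, `U_i = T i` beyond, and `t = 20 s - ⌊20 s⌋`, `i = ⌊20 s⌋`:
`U(s) = (1 - t) U_i + t U_(i+1) - t (1 - t) (a_i - b_i)/40` (this is `∫_s^∞ uS`: it is continuous, and within a cell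
`U(x) - U(y) = (y - x)(uS x + uS y)/2`), `L` in the same way. U_int: within a cell because `uS` is antitone; in general by
adding up (induction over the number of cells between; or: `G(y) = U x - U y - (y - x) uS y ≥ 0` ...). low: for `s` in the cell
`i ≥ 40`, `s = (i + t)/20`: `s lS(s) = (1-t) (i/20) l_i + t ((i+1)/20) l_(i+1) + t (1-t) (l_i - l_(i+1))/20` and
`U(s-1) ≤ (1-t) U_(i-20) + t U_(i-19)`, so the inequality follows from the two nodes. up: the same for `i ≥ 60`. mid: for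
`20 ≤ i < 60`, `K/s` is convex, so it is at most the chord: `K/s ≤ (1-t) K/(i/20) + t K/((i+1)/20)`. All values are `≥ 0`. -/
def S_tab : Prop := R_tab

/-- Choice of the parameters. -/
def R_parg : Prop := ∀ w k e : ℝ, 0 < w → w ≤ k → 0 < e → ∃ S : ℝ, 3 ≤ S ∧
  ∀ (C0 : ℝ) (a0 : ℕ), ∀ᶠ J : ℕ in atTop, ∃ m : ℕ, 2 ≤ m ∧ a0 ≤ 2 ^ 2 ^ m + 1 ∧
    C0 * ((2 : ℝ) ^ 2 ^ m) ^ 50 ≤ (J : ℝ) ^ e ∧ ((2 ^ 2 ^ m + 1 : ℕ) : ℝ) ≤ (J : ℝ) ^ w ∧
    Real.log ((J : ℝ) ^ k) ≤ S * Real.log ((2 ^ 2 ^ m + 1 : ℕ) : ℝ)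

/-- [FP parg] (adapt `CH/S/P/par.lean`) Proof. `η = min (e/51) (w/2)`, `S = max 3 (2k/η)`. For `J` large let `m` be maximal with
`(2:ℝ)^(2^m) ≤ J^η`, `X = 2^(2^m)`; then `X^2 > J^η`, so `k log J ≤ (2k/η) log X`; `X → ∞` with `J`, so `m ≥ 2`, `C0 ≤ X`, `a0 ≤ X`,
`C0 X^50 ≤ X^51 ≤ J^e`, `X + 1 ≤ J^(w/2) + 1 ≤ J^w`. -/
def S_parg : Prop := R_parg

/-- [FP sg] The sieve weights (adapt `CH/S/P/fin.lean`). Use `q_LS : T_ls` (`FP/LS.lean`), `q_fl : T_fl` (`FP/FL.lean`) and from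
`CH/S/All.lean` `p_pt, p_rep, p_tel, p_mer, p_conv, p_comp`.
Proof. Let `w, k, e` be given, `S` from R_parg, `ε` from `q_LS` (with R_tab), `a0` from `p_mer`, `C0` from `q_fl` (enlarged to
`max C0 0`), `J` large, `m` from R_parg, `X = 2^(2^m)`, `a = X + 1`, `D = J^k`, `z = J^w`, `P0 = OP X`, `P1 = Pr a ⌈z⌉₊`, `log D/log z = k/w`.
Upper weights: `cp` from `Ap Bp` (support `≤ J^e * J^k = J^(k+e)`), main term `≤ (1 + 1/10000)(1 + uS (k/w)) VV z`. Lower weights: if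
`2w ≤ k`: `cm` from `Ap Bm + Am Bp - Ap Bp` (`⌈z⌉₊ ≤ z + 1 ≤ z^2 ≤ D`); with `V0, V1` the two products, `V0 ≤ Ap ≤ (1+1/10000) V0`,
`Am ≥ (1 - 1/10000) V0`, `Bm ≥ (1 - l) V1`, `V1 ≤ Bp ≤ (1 + u) V1`, `l = lS (k/w) ≤ lS 2 ≤ 1.01`, `u = uS (k/w) ≤ uS 2 ≤ 0.8`:
`Ap Bm ≥ (1 - l) V0 V1 - 0.000001 V0 V1` (if `Bm ≥ 0` use `Ap ≥ V0`, else `Ap ≤ 1.0001 V0`), `(Ap - Am) Bp ≤ 0.0002 * 1.8 V0 V1`; total
`≥ (1 - l - 0.0004) V0 V1`. If `2w > k` take `cm = 0` (and `mm` is void). `mp`, `mm` hold for all `N ≥ J^(k+e)` by S_conv. -/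
def S_sg : Prop := R_tab → R_parg → I_Sg

/-- All the weights. -/
def R_WW : Prop := ∀ᶠ J : ℕ in atTop, ∃ (cm cx : ℕ → ℝ) (cq : ℕ → ℕ → ℝ), WW J cm cx cq

/-- [FP WW] Proof. I_Sg for `(1/11, 4995/10000, 1/10000)`, `(3/16, 4995/10000, 1/10000)` and the 160 triples
`(1/11, 4995/10000 - (c+1)/704, 1/10000)`, `64 ≤ c < 224` (`4995/10000 - 224/704 ≥ 1/11`); `Filter.eventually_all_finset` (or
`eventually_all` for `Fin 224`) and `choose`. -/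
def S_WW : Prop := I_Sg → R_WW

/-- Quotients of the products `VV`. -/
def R_mvg : Prop := ∀ w w' ε : ℝ, 0 < w → w ≤ w' → 0 < ε → ∀ᶠ J : ℕ in atTop,
  VV ((J : ℝ) ^ w') ≤ (1 + ε) * (w / w') * VV ((J : ℝ) ^ w)

/-- [FP mvg] (compare `CH/S/P/mer.lean`) Proof. Let `n = ⌈J^w⌉₊`, `m = ⌈J^w'⌉₊`, `n ≤ m`. `VV(J^w') = VV(J^w) * ∏ (1 - 1/(p-1))` over the primes
`n ≤ p < m` (`p > 2` for large `J`), and `1 - 1/(p-1) ≤ exp(-1/(p-1))`. Lower Mertens: with `A k = Asum k = ∑_{p ≤ k} log p/(p-1)`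
(`Pool.Agent.Lib.MP_d610d0_nt.Asum`, `Asum_lower : log (k+1) - 1 ≤ Asum k`, `Asum_upper : Asum k ≤ log k + 0.228` for `k ≥ 4000`; see
`CH/S/P/mer.lean` for the partial summation) `∑_{n ≤ p < m} 1/(p-1) = ∑_{k=n}^{m-1} (A k - A (k-1))/log k ≥ log(log m/log n) - 4/log n`
(Abel summation against the decreasing function `1/log k`, `|A k - log k| ≤ 1`, and `(log k - log(k-1))/log k ≥ log log k - log log (k-1)
- 1/((k-1) log^2 k)`-like error; or compare with `∫ dt/(t log t)`). So the product is at most `(log n/log m) exp(4/log n)`, and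
`log n/log m → w/w'`, `log n → ∞`. -/
def S_mvg : Prop := R_mvg

/-- The lower bound for `VV`. -/
def R_VA : Prop := ∀ᶠ J : ℕ in atTop, 6.2 / Real.log J ≤ VV (za J)

/-- [FP VA] Proof: `CA/SV/p_V.lean` shows `VV z ≥ 0.57/log z` for large `z` (copy the proof with `za` in the place of `zc`); here
`log z = L/11`, `0.57 * 11 = 6.27`. -/
def S_VA : Prop := R_VA

/-- The numerical facts on the sieve functions. -/
def R_numF : Prop :=
  0.9989 ≤ (1 - lS ((4995 / 10000) / (1 / 11)) - 1 / 2000) * 0.9999 ∧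
  (1 + 1 / 5000) * 1.0001 * ∑ c ∈ Ico 64 224,
    aA c * (1 + uS ((4995 / 10000 - ((c : ℝ) + 1) / 704) / (1 / 11))) ≤ 1.4454 ∧
  (1 + 1 / 5000) * (1 + 1 / 10000) * (16 / 33) * (1 + uS ((4995 / 10000) / (3 / 16))) ≤ 0.65042

/-- [FP numF] Proof. The true values are `0.998909`, `1.445357`, `0.650417`. (1) `20 s = 109.89`: `lS = 0.11 * 498/10^6 + 0.89 * ...`, i.e.
`(1 - 0.89) lN 109 + 0.89 lN 110`. (3) `20 s = 53.28`. (2) `20 s = 220 (4995/10000 - (c+1)/704) = (175824 - 500 (c+1))/1600`: so with the natural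
numbers `X = 175824 - 500 (c+1)`, `i = X/1600`, `r = X % 1600` one has `⌊20 s⌋₊ = i` and `uS s = ((1600 - r) uN i + r uR i)/1600`, all
`i ≤ 160`. Kernel computation with natural numbers: e.g. `10^12 aA c ≤ 500250000000 (2c+1)/(c (c+1)) + 1` (natural division) and
`10^6 (1 + uS s) ≤ 10^6 + ((1600 - r) a_i + r b_i)/1600 + 1`, sum over `c` by `decide +kernel`. -/
def S_numF : Prop := R_numF

/-! ### B. From characters to residue classes -/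

/-- The summation over the conductors. -/
def R_cor : Prop := ∀ B : ℕ, ∀ᶠ J : ℕ in atTop,
  ∀ (s Cf : (Σ q, DirichletCharacter ℂ q) → ℝ) (X1 X2 : ℝ), 0 ≤ X1 → 0 ≤ X2 → (∀ p, 0 ≤ s p) →
  (∀ p : (Σ q, DirichletCharacter ℂ q), 1 ≤ p.1 → 0 ≤ Cf p ∧ Cf p ≤ 100 * (Real.log J + 1) ^ 3 / p.1) →
  (∀ p : (Σ q, DirichletCharacter ℂ q), (J : ℝ) ^ (4996 / 10000 : ℝ) < p.1 → Cf p = 0) →
  (∀ p ∈ primChars ⌈(Real.log J) ^ B⌉₊, s p ≤ X1) →
  (∀ R : ℕ, (Real.log J) ^ B ≤ (R : ℝ) → (R : ℝ) ≤ (J : ℝ) ^ (4998 / 10000 : ℝ) →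
    ∑ p ∈ primChars R, s p ≤ (R : ℝ) * X2) →
  ∑ p ∈ primChars (Nat.sqrt J), Cf p * s p ≤ (Real.log J) ^ (2 * B + 4) * X1 + (Real.log J) ^ 5 * X2

/-- [FP cor] Proof: this is the middle part of `CA/SV/p_red.lean` (`red_core`, with `K = 100 (L+1)^3 ≤ 800 L^3`, `R i = min (2^i R0) Y0`, `R0 = ⌈L^B⌉₊`,
`Y0 = ⌊J^(4996/10000)⌋₊`, `I = ⌈2L⌉₊`): the sum is at most `R0^2 K X1 + 2 I K X2`, `R0 ≤ 2 L^B`, `I ≤ 3L`, `3200 ≤ L`. -/
def S_cor : Prop := R_cor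

/-- From characters to residue classes. -/
def R_redA : Prop := ∀ (ω : ℝ) (F : ℕ → ℕ → ℝ), LCw F → SCw F →
  (∀ᶠ J : ℕ in atTop, ∀ j ∈ Ioc J (2 * J), ∀ n, 1 ≤ n → F J n ≠ 0 → wJ J j n ≠ 0 →
    Rough ((J : ℝ) ^ ω) n) → ∀ a : ℤ, a = 2 ∨ a = -2 → FinG ω F a

/-- [FP redA] Proof: `CA/SV/p_red.lean` with R_cor: `B` from LCw F for `A + 6`, SCw F for `A + 2B + 5` and `B + 1`; `s p = ‖Sf (F J) J j p.2‖`,
`X1 = J^2/L^(A+2B+5)`, `X2 = J^2/L^(A+6)`, `Cf p = ‖C_p‖` (R_cfs with `Nat.sqrt J` in the place of `J`). The sum is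
`≤ J^2/L^(A+1) + J^2/L^(A+1) ≤ J^2/L^A`. -/
def S_redA : Prop := R_grp → R_cfs → R_cor → R_redA

/-- Splitting off the first prime. -/
def R_rb1 : Prop := ∀ (k : ℕ) (lo hi : Fin (k + 1) → ℝ) (n : ℕ), 1 ≤ n →
  (∀ p : ℕ, bx (k + 1) (Fin.cons (p : ℝ) (Fin.tail lo)) (Fin.cons (p : ℝ) (Fin.tail hi)) n ≠ 0 → p ∣ n) ∧
  ∀ N : ℕ, n ≤ N → bx (k + 1) lo hi n =
    ∑ p ∈ ((range (N + 1)).filter (fun p : ℕ => p.Prime)).filter (fun p : ℕ => lo 0 ≤ p ∧ (p : ℝ) ≤ hi 0),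
      bx (k + 1) (Fin.cons (p : ℝ) (Fin.tail lo)) (Fin.cons (p : ℝ) (Fin.tail hi)) n

/-- [FP rb1] Proof: `bx` is the number of the tuples of primes `q` with `lo i ≤ q i ≤ hi i` and product `n` (the condition `q i ≤ n` is automatic). Sort them by
the value `p = q 0` (`Finset.card_eq_sum_card_fiberwise`): the tuples with `q 0 = p` are those with `p ≤ q 0 ≤ p` (as real numbers), the other conditions
unchanged (`Fin.forall_fin_succ`, `Fin.cons_succ`, `Fin.tail`); `p` divides `n`. -/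
def S_rb1 : Prop := R_rb1

/-- The trivial bound. -/
def R_rb2 : Prop := ∀ k : ℕ, ∀ᶠ J : ℕ in atTop, ∀ j ∈ Ioc J (2 * J), ∀ (lo hi : Fin (k + 1) → ℝ) (p : ℕ),
  1 ≤ p → p ≤ J → (∀ n, 1 ≤ n → bx (k + 1) lo hi n ≠ 0 → p ∣ n) →
  ∑ n ∈ Icc 1 (27 * J ^ 3), bx (k + 1) lo hi n * wJ J j n ≤ (J : ℝ) ^ (2 + 1 / 100 : ℝ) / p

/-- [FP rb2] (uses CH.F win) Proof: the entries of a tuple counted by `bx (k+1) lo hi n` are prime factors of `n`, and `n ≤ 27 J^3` has at most `5L` of them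
(`2^ω ≤ n`, `Nat.card_primeFactors..` or `Nat.log`), so `bx ≤ (5L)^(k+1)`. The `n` with `wJ J j n ≠ 0` lie in the interval `(j^3, (j+1)^3)` of length
`≤ 19 J^2`, which contains at most `19 J^2/p + 1 ≤ 20 J^2/p` multiples of `p` (`p ≤ J`), and `0 ≤ wJ ≤ 1`. `20 (5L)^(k+1) ≤ J^(1/100)`. -/
def S_rb2 : Prop := Pool.Agent.CH.F.S_win → R_rb2

/-- From characters to residue classes, boxes with a small first prime. -/
def R_redB : Prop := ∀ (k : ℕ) (lo hi : ℕ → Fin (k + 1) → ℝ), BoxS k lo hi →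
  FinG (3 / 16) (fun J n => bx (k + 1) (lo J) (hi J) n) 2

/-- [FP redB] The small first prime `p` may divide the moduli. Proof. `J` large, `lo = lo J`, `hi = hi J`, `F n = bx (k+1) lo hi n`,
`F_p n = bx (k+1) (Fin.cons p (Fin.tail lo)) (Fin.cons p (Fin.tail hi)) n`, `P` = the primes `p` with `lo 0 ≤ p ≤ hi 0` (so `J^(1/12) ≤ p ≤ J^(7/22)`, `p ≤ J`).
`F n = ∑_{p ∈ P} F_p n` for `1 ≤ n ≤ 27J^3` (R_rb1), the box of `F_p` satisfies BoxSJ, and `F_p n ≠ 0` implies `p ∣ n`; all prime factors of `n` are `p` or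
`≥ J^(7/22) > J^(3/16)` (`asm_bx_rough` in `CA/SV/Asm.lean` is similar). `EE` is linear in the sequence, so the sum is `∑_{p ∈ P} ∑_q c q EE J F_p 2 j q`.
(1) The `q` with `p ∣ q` (and `c q ≠ 0`, so `q` is odd): no `n` with `F_p n ≠ 0` satisfies `q ∣ n - 2`, so `EE J F_p 2 j q = -(1/φ(q)) M_p`, `M_p = ∑ F_p wJ`, and
`|∑_{p ∣ q} c q EE| = M_p |∑_{p ∣ q} c q/φ(q)| ≤ (J^(2.01)/p) * 100 (L+1)^3/p` (R_rb2, R_cfs with `r = p`). Sum over `p ≥ J^(1/12)`: `∑ 1/p^2 ≤ 2 J^(-1/12)`.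
(2) The `q` with `p ∤ q`: the weights `c' q = c q` if `p ∤ q`, else `0`, are of type `Wt`, and R_grp applies to `F_p`, `c'` (coprimality: see above):
`∑_q c' q EE J F_p 2 j q = ∑_χ χ⁻¹(2) (C_r - D_r,p) Sf F_p J j χ`, `r` the conductor, `C_r = ∑_{r ∣ q} c q/φ(q)`, `D_r,p = ∑_{r ∣ q, p ∣ q} c q/φ(q)`.
(3) `∑_p Sf F_p = Sf F`, so the terms with `C_r` give `∑_χ χ⁻¹(2) C_r Sf F J j χ`: as in redA (`LCw F` follows from I_LS, SCw F is I_SS), at most `J^2/(4 L^A)` (take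
`A + 1` there).
(4) Fix `p`. If `p ∣ r` then `Sf F_p J j χ = 0` (`χ(n) = 0`). If `p ∤ r`: `r ∣ q` and `p ∣ q` iff `r p ∣ q`, so R_cfs (with `r p`) gives `|D_r,p| ≤ 100 (L+1)^3/(r p)`, and
`D_r,p = 0` if `r > J^(4996/10000)`. R_cor with `Cf = p |D_r,p|` (`0` if `p ∣ r`), `s = ‖Sf F_p J j χ‖ ≤ M_p ≤ J^(2.01)/p = X1`, `X2 = J^2/L^(A+8)`, `B` from I_LS for `A + 8`:
`p ∑_χ |D_r,p| ‖Sf F_p‖ ≤ L^(2B+4) J^(2.01)/p + J^2/L^(A+3)`. Divide by `p`, sum over `p ∈ P`: `∑ 1/p^2 ≤ 2 J^(-1/12)`, `∑ 1/p ≤ L + 1`. -/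
def S_redB : Prop := R_grp → R_cfs → R_cor → R_redA → R_rb1 → R_rb2 → I_LS → I_SS → R_redB

/-! ### C. The mass of the primes and of the switched sequences -/

/-- The mass of the primes. -/
def R_m1A : Prop := ∀ᶠ J : ℕ in atTop, ∀ j ∈ Ioc J (2 * J),
  0.9999 * mu J j ≤ ∑ n ∈ Icc 1 (27 * J ^ 3), thP n * wJ J j n ∧
  ∑ n ∈ Icc 1 (27 * J ^ 3), thP n * wJ J j n ≤ 1.0001 * mu J j

/-- [FP m1A] (adapt `CA/SV/p_m1.lean`) Proof: `E = E0 + 1` in `CMw FT` for `A = 1`. `|2 J ∑ thP wJ - L^E ∑ thP wL| ≤ J^3/L`,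
`|L^E ∑ thP wL - L^E ∑ Λ wL| ≤ L^E J^(8/5)` (R_pp, `0 ≤ wL ≤ 1`), `|L^E ∑ Λ wL - x| ≤ x/L` (R_m1a). So `|2 J ∑ thP wJ - x| ≤ x/L + J^3/L + L^E J^(8/5)
≤ 0.0001 x` (`x ≥ J^3`); divide by `2 J`. -/
def S_m1A : Prop := R_pp → R_m1a → CMw FT → R_m1A

open Classical in
/-- Sums over boxes as sums over tuples. -/
def R_bxT : Prop := ∀ (k N : ℕ) (lo hi : Fin k → ℝ) (h : ℕ → ℝ), (∀ n, 0 ≤ h n) →
  ∑ n ∈ Icc 1 N, bx k lo hi n * h n ≤
    ∑ q ∈ Fintype.piFinset (fun i : Fin k =>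
      (range (N + 1)).filter (fun p : ℕ => p.Prime ∧ lo i ≤ (p : ℝ) ∧ (p : ℝ) ≤ hi i)), h (∏ i, q i)

/-- [FP bxT] Proof: as `CH/M2/tup1.lean` (there the tuples are in `Sp z N` and there is a factor `1/k!`). -/
def S_bxT : Prop := R_bxT

/-- The sum of `1 / (p - 1)` over the cells. -/
def R_cellA : Prop := ∀ᶠ J : ℕ in atTop, ∀ (S : Finset ℕ) (i : ℕ), 64 ≤ i → i < 1889 →
  (∀ p ∈ S, p.Prime ∧ mA J p = i) → ∑ p ∈ S, 1 / ((p : ℝ) - 1) ≤ aA i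

/-- [FP cellA] (adapt `CA/SV/p_cell.lean`) Proof. `p ∈ S` satisfies `i ≤ 704 log p/L < i + 1`, i.e. `a ≤ p ≤ b`, `a = J^(i/704) ≥ J^(1/11)`,
`b = J^((i+1)/704)`. `∑ 1/p ≤ log((i+1)/i) + C/log a ≤ (2i+1)/(2i(i+1)) + 11 C/L` (`S_log2`, `S_mer`), `1/(p-1) ≤ (1/p)(1 + 2/a)`, and
`(2i+1)/(2i(i+1)) ≥ 1/(i+1) ≥ 1/1889`, so for large `J` the sum is `≤ 1.0005 (2i+1)/(2i(i+1))`. -/
def S_cellA : Prop := S_log2 → S_mer → R_cellA

/-- Primes in a long window. -/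
def R_winG : Prop := ∀ ε : ℝ, 0 < ε → ∀ E : ℕ, 1 ≤ E → ∀ᶠ J : ℕ in atTop, ∀ y : ℝ,
  (J : ℝ) ^ (1 / 12 : ℝ) ≤ y → ∀ S : Finset ℕ, (∀ p ∈ S, p.Prime) →
  Real.log J ^ E * ∑ p ∈ S, tri (Real.log J ^ E * Real.log ((p : ℝ) / y)) ≤ (1 + ε) * y / Real.log y

/-- [FP winG] (compare `CH/M2/win.lean`) Proof. `lam = L^E`, `K` a large natural number (`K ≥ 100/ε`), `h = 1/(K lam)`, `C` from `S_sh` with `B = E + 1`. As in
`CH/M2/win.lean`: a prime `p ∈ S` with `tri ≠ 0` has `|log(p/y)| < 1/lam = K h`; `i = ⌊log(p/y)/h⌋ + K ∈ {0, .., 2K-1}`, `t_i = y exp((i-K)h)`, `t_i ≤ p ≤ t_(i+1)`,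
`tri(..) ≤ c_i`, `∑ c_i = K + 1`. The number of the `p ∈ S` in `[t_i, t_(i+1)]` is at most `(t_(i+1) - t_i + C t_(i+1)/(log t_i)^(E+1))/log t_i`,
`t_(i+1) - t_i ≤ y e^(1/lam) (e^h - 1)`, `log t_i ≥ log y - 1/lam`. So the left side is at most
`(K+1) (e^(1/lam) y/(log y - 1/lam)) (lam (e^h - 1) + lam C/(log y - 1/lam)^(E+1))`, `lam (e^h - 1) ≤ (1/K)(1 + h)`, and
`lam/(log y - 1/lam)^(E+1) ≤ (24)^(E+1)/log y → 0` (`L ≤ 12 log y`), uniformly in `y`; so for large `J` it is `≤ (1 + 1/K)(1 + ε/10) y/log y ≤ (1+ε) y/log y`. (Another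
way: `tri u = ∫_0^1 [|u| < τ] dτ`, and for fixed `τ` S_sh with `a = y e^(-τ/lam)`, `b = y e^(τ/lam)`.) -/
def S_winG : Prop := S_sh → R_winG

/-- The innermost prime. -/
def R_ptwA : Prop := ∀ E : ℕ, 1 ≤ E → ∀ᶠ J : ℕ in atTop, ∀ j ∈ Ioc J (2 * J),
  ∀ (N r : ℕ) (q : Fin r → ℕ), (∀ i, (q i).Prime ∧ za J ≤ q i) →
  Real.log J ^ E * ∑ p ∈ Sp (ya J) N, wL (Real.log J ^ E) j (p * ∏ i, q i) ≤
    1.0005 * (((j : ℝ) + 1 / 2) ^ 3 / Real.log J) *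
      ((∏ i, 1 / (q i : ℝ)) * PhA r (∑ i, mA J (q i)))

/-- [FP ptwA] (adapt `CA/SV/p_ptw.lean`) Proof. `lam = L^E`, `P = ∏ q i ≥ 1`, `M = ∑ mA J (q i)`, `y = x/P`; `M L/704 ≤ log P ≤ (M + r) L/704`. The right side
is `≥ 0`. (a) `M ≥ 1889`: `P ≥ J^(1889/704)`, so every `p ≥ ya` has `p P ≥ J^(2113/704) ≥ 27 J^3 ≥ 1.7 x ≥ x exp(1/lam)`, `tri = 0`. (b) `M < 1889`. If
`y < ya exp(-1/lam)` the left side is `0`. Otherwise `y ≥ J^(1/12)`, R_winG with `ε = 0.0003`: left side `≤ 1.0003 y/log y`; `log y ≥ 224 L/704 - 1/lam` and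
`log y = log x - log P ≥ 3L - (M+r) L/704`, so `log y ≥ 0.9999 (L/704) max 224 (2112 - M - r)` (natural subtraction). `1.0003/0.9999 ≤ 1.0005`. -/
def S_ptwA : Prop := R_winG → R_ptwA

/-- Numerics, no small prime. -/
def R_nA0 : Prop := ∑ k ∈ Icc 5 9, 1 / (k.factorial : ℝ) * ((Us 1889 aB)^[k - 1] (PhA (k - 1))) 0 ≤ 0.0812 / 3

/-- [FP nA0] (kernel computation with big natural numbers) The true value of 3 times the left side is `0.08112551`.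
Proof. The recursion is a convolution: for `Φ ≥ 0` vanishing on `[K, ∞)`, `((Us K a)^[r] Φ) 0 = ∑_{M < K} (coefficient of X^M in A^r) Φ(M)`,
`A = ∑_{i < K} a_i X^i`; (induction on `r`: `((Us K a)^[r] Φ) s = ∑_M [X^M] A^r * Φ (s + M)`, where the terms with `s + M ≥ K` vanish, and the terms with an index
`i ≥ K` do not matter). Use natural numbers: `aN i = ⌊10^12 aA i⌋ + 1` for `224 ≤ i < 1889` (natural division: `10^12 * 10005 * (2i+1)/(20000 i (i+1)) + 1`), else `0`;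
`pN r M = 704 * 10^12/max 224 (2112 - M - r) + 1` for `M < 1889`. KRONECKER SUBSTITUTION: with `B = 2^512` and the natural numbers `a = ∑ aN i B^i`,
`f = ∑ pN r M B^(1888 - M)` (both computed by a Horner recursion), the number `a^r * f` is `∑ c_m B^m`, where all `c_m < B` (they are at most
`(∑ aN)^r ∑ pN`), and `c_1888 = ∑_M [X^M] aN(X)^r * pN r M`. So `c_1888 = a^r * f / B^1888 % B`: a few multiplications of natural numbers with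
`2^20` bits, which the kernel does with GMP in no time (`decide +kernel` or `by norm_num`/`Nat` equation with `rfl`). For the proof use polynomials
`ℕ[X]` (`Polynomial.eval B`, `eval_mul`, and the digits of `eval B` of a polynomial with coefficients `< B`: `Nat.ofDigits`, `Nat.getD_digits`:
`(Nat.digits b n).getD i 0 = n / b ^ i % b`), or lists. Only an upper bound is needed: `∑ c_m B^m ≥ c_1888 B^1888`, so `c_1888 ≤ a^r f/B^1888`, but that is too big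
(it contains the higher coefficients), hence `% B`; alternatively cut off: replace `a^r` by its residue modulo `B^1889` after each step. -/
def S_nA0 : Prop := R_nA0

/-- Numerics, one small prime. -/
def R_nA1 : Prop := ∑ k ∈ Icc 4 9, 1 / (k.factorial : ℝ) *
  ∑ c ∈ Ico 64 224, aA c * ((Us 1889 aB)^[k - 1] (fun i => PhA k (c + i))) 0 ≤ 0.6481 / 3

/-- [FP nA1] (kernel computation) Three times the left side is `0.64799435`. Proof: as FP nA0, with one more factor `∑_{64 ≤ c < 224} aA c X^c`. -/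
def S_nA1 : Prop := R_nA1

/-- Numerics, cofactors with one small prime. -/
def R_nE1 : Prop := 1 / 6 * ∑ c ∈ Ico 64 224, aA c * ((Us 707 aB)^[3] (In 707)) 0 ≤ 0.00013

/-- [FP nE1] (kernel computation) The true value is `0.00012874`; `∑_c aA c = 1.2534..`. Proof: as FP nA0, or directly: `((Us 707 aB)^[3] (In 707)) 0 =
∑_{i1+i2+i3 ≤ 706} aA i1 aA i2 aA i3`, all `i ≥ 224`, i.e. `i = 224 + i'`, `i1' + i2' + i3' ≤ 34`. -/
def S_nE1 : Prop := R_nE1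

/-- Numerics, cofactors without small prime. -/
def R_nE0 : Prop := 1 / 24 * ((Us 951 aB)^[4] (In 951)) 0 ≤ 0.00001

/-- [FP nE0] (kernel computation) The true value is `5.8 * 10^(-6)`. Proof: `((Us 951 aB)^[4] (In 951)) 0 = ∑ aA i1 aA i2 aA i3 aA i4` over `i ≥ 224` with sum `≤ 950`, i.e.
`i = 224 + i'`, `i1' + .. + i4' ≤ 54`. (As FP nA0, or: every `aA i ≤ aA 224 ≤ 0.004458`, the number of the tuples is `choose 58 4 = 424270`, which gives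
`424270 * 0.004458^4/24 = 6.98 * 10^(-6)`.) -/
def S_nE0 : Prop := R_nE0

/-- Long windows, no small prime. -/
def R_lwA0 : Prop := ∀ E : ℕ, 1 ≤ E → ∀ᶠ J : ℕ in atTop, ∀ j ∈ Ioc J (2 * J),
  Real.log J ^ E * ∑ n ∈ Icc 1 (27 * J ^ 3), RB0 J n * wL (Real.log J ^ E) j n ≤
    0.08125 * (((j : ℝ) + 1 / 2) ^ 3 / (3 * Real.log J))

/-- [FP lwA0] (adapt `CA/SV/p_lw.lean`) Proof. `N = 27 J^3`, `lam = L^E`, `S = Sp (ya J) N`. For `k = r + 1` R_bxT bounds `∑_n B0 k J n wL lam j n` by the sum over the tuples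
with entries in `S` (the entries are `≥ ya`), `= TS S k (wL lam j) = TS S r (fun P => ∑ p ∈ S, wL lam j (p * P))` (S_tup2). R_ptwA, times `lam`: at most
`1.0005 (x/L) ∑_q (∏ 1/q i) PhA r (∑ mA J (q i))`, and by R_tup (`K = 1889`, `w p = 1/p`, `m = mA J`, `a = aB`, `Φ = PhA r`; cells: for `i < 224` the filter is
empty, for `224 ≤ i < 1889` R_cellA and `1/p ≤ 1/(p-1)`) `≤ 1.0005 (x/L) ((Us 1889 aB)^[r] (PhA r)) 0`. Sum over `k` with `1/k!`, R_nA0: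
`1.0005 * 0.0812 ≤ 0.08125`. -/
def S_lwA0 : Prop := S_tup2 → R_tup → R_bxT → R_cellA → R_ptwA → R_nA0 → R_lwA0

/-- Long windows, one small prime. -/
def R_lwA1 : Prop := ∀ E : ℕ, 1 ≤ E → ∀ᶠ J : ℕ in atTop, ∀ j ∈ Ioc J (2 * J),
  Real.log J ^ E * ∑ n ∈ Icc 1 (27 * J ^ 3), RB1 J n * wL (Real.log J ^ E) j n ≤
    0.6485 * (((j : ℝ) + 1 / 2) ^ 3 / (3 * Real.log J))

/-- [FP lwA1] (uses the same results as lwA0) Proof. For `64 ≤ c < 224`, `4 ≤ k ≤ 9`: R_bxT bounds `∑_n B1 c k J n wL lam j n` by the sum over the tuples `(q, p_1, ..., p_k)`, `q` a prime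
in the cell `c` (`J^(c/704) ≤ q`, `q ≤ ⌈J^((c+1)/704)⌉ - 1` means `q < J^((c+1)/704)`, so `mA J q = c`), `p_i ∈ S = Sp (ya J) N` (drop the upper ends). The innermost prime is `p_1`: R_ptwA for the
`k` outer primes `q, p_2, .., p_k` (all `≥ za`), times `lam`: at most `1.0005 (x/L) ∑_q (1/q) ∑ (∏ 1/p_i) PhA k (c + ∑_{i ≥ 2} mA J (p_i))`. R_tup with `r = k - 1`,
`Φ i = PhA k (c + i)` (zero for `i ≥ 1889`) and R_cellA for the sum over `q`: `≤ 1.0005 (x/L) aA c ((Us 1889 aB)^[k-1] (fun i => PhA k (c + i))) 0`. Sum over `k` with `1/k!` and over `c`: R_nA1,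
`1.0005 * 0.6481 ≤ 0.6485`. (The order of the coordinates: `Fin.prod_univ_succ` twice, or first prove a version of S_tup2 with an extra first coordinate.) -/
def S_lwA1 : Prop := S_tup2 → R_tup → R_bxT → R_cellA → R_ptwA → R_nA1 → R_lwA1

/-- The mass of the switched sequences. -/
def R_msA : Prop := ∀ᶠ J : ℕ in atTop, ∀ j ∈ Ioc J (2 * J),
  ∑ n ∈ Icc 1 (27 * J ^ 3), RB0 J n * wJ J j n ≤ 0.0813 * mu J j / (3 * Real.log J) ∧
  ∑ n ∈ Icc 1 (27 * J ^ 3), RB1 J n * wJ J j n ≤ 0.6486 * mu J j / (3 * Real.log J)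

/-- [FP msA] (adapt `CA/SV/p_ms.lean`) Proof: `E` = the maximum of `1` and of the `E0` of the finitely many `CMw` for `A = 2`. With the weights `1/k!` (the sum of all weights
is `≤ 160`): `2 J ∑ RB0 wJ ≤ L^E ∑ RB0 wL + J^3/L^2 ≤ 0.08125 x/(3L) + J^3/L^2 ≤ 0.0813 x/(3L)` for large `J`; `2 J ∑ RB1 wJ ≤ 0.6485 x/(3L) + 160 J^3/L^2 ≤ 0.6486 x/(3L)`. -/
def S_msA : Prop := (∀ k ∈ Icc 5 9, CMw (B0 k)) → (∀ c ∈ Ico 64 224, ∀ k ∈ Icc 4 9, CMw (B1 c k)) →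
  R_lwA0 → R_lwA1 → R_msA

/-! ### D. Very large prime factors -/

/-- The size of `G` and of the error terms. -/
def R_gwA : Prop := ∀ᶠ J : ℕ in atTop, ∀ e : ℕ, Odd e → Rough (za J) e →
  (e : ℝ) ≤ 27 * (J : ℝ) ^ (27 / 20 : ℝ) →
  0.0245 * Real.log J ^ 2 ≤ GS (cl e) (De e (Rc J)) ∧
  WS (cl e) (De e (Rc J)) ^ 2 ≤ (J : ℝ) ^ (645 / 1000 : ℝ)

/-- [FP gwA] Proof: `CA/SV/p_gw.lean` with `za` in the place of `zc` (the roughness is only used for `∑_{p ∣ e} 1/p ≤ 4L/za → 0`). -/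
def S_gwA : Prop := R_cls → R_gt → R_tl → R_gwA

/-- The sums over the cofactors. -/
def R_seA : Prop := ∀ᶠ J : ℕ in atTop, ∑ e ∈ ES0 J, 1 / (e : ℝ) ≤ 0.00001 ∧ ∑ e ∈ ES1 J, 1 / (e : ℝ) ≤ 0.00013

/-- [FP seA] (adapt `CA/SV/p_se.lean`) Proof. ES0: `e ∈ ES0 J` is squarefree, all its primes are `≥ ya`, `Ω e ≥ 4`, and `ya^5 = J^(35/22) > 27 J^(27/20)`, so `Ω e = 4` and `1 ≤ Rk (ya J) 4 e`. With
`h n = if (n:ℝ) ≤ 27 J^(27/20) then 1/n else 0`, `S_tup1`: the sum is at most `TS (Sp ya N) 4 h/24`; for a tuple with product `≤ 27 J^(27/20)`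
`M = ∑ mA J (q i)` satisfies `M L/704 ≤ log 27 + 1.35 L`, `M < 951`; R_tup (`K = 951`, cells as in lwA0), R_nE0. ES1: `e = q e'`, `q ∈ QS J`, `e'` squarefree, rough (`ya`), `Ω e' ≥ 3`,
`e' ≤ X = 27 J^(1+1/500+1/704)`, and `ya^4 = J^(14/11) > X`, so `Ω e' = 3`; the sum is at most `(∑_{q ∈ QS J} 1/q) (∑_{e'} 1/e')`; the first factor is `≤ ∑_{c=64}^{223} aA c` (`64 ≤ mA J q < 224`,
R_cellA), the second one `≤ (1/6) ((Us 707 aB)^[3] (In 707)) 0` (`M L/704 ≤ log 27 + (1+1/500+1/704) L`, `706.41 + small < 707`). R_nE1. -/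
def S_seA : Prop := S_tup1 → R_tup → R_cellA → R_nE0 → R_nE1 → R_seA

/-- The number of the primes with a very large prime factor of `p + 2`. -/
def R_bgA : Prop := ∀ᶠ J : ℕ in atTop, ∀ j ∈ Ioc J (2 * J),
  (bg0 J j : ℝ) ≤ 0.0009 * mu J j / Real.log J ^ 2 ∧ (bg1 J j : ℝ) ≤ 0.0107 * mu J j / Real.log J ^ 2

/-- [FP bgA] (adapt `CA/SV/p_bg.lean`) Proof. As there: `p` is counted, `m` its large prime, `e = (p+2)/m`, `p = e m - 2`. bg0: `m > Yc J`, `e ≤ 27 J^3/Yc J = 27 J^(27/20)`, `Ω e ≥ 4`, `e ∈ ES0 J`. bg1: `c = mA J q`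
(`64 ≤ c < 224`), `m > Y1 c J > ya > q`, so `q ∣ e` and `e/q = (p+2)/(q m) ≤ 27 J^3/(J^(c/704) Y1 c J) = 27 J^(1+1/500+1/704)`, `e ≤ q * (e/q) ≤ 27 J^(7/22+1+1/500+1/704) ≤ 27 J^(27/20)`,
`Ω (e/q) = Ω (p+2) - 2 ≥ 3`: `e ∈ ES1 J`. For fixed `e` the primes `m` lie in an interval with `≤ N ≤ 2.0002 mu/e + 2` integers and avoid the classes `cl e` modulo the primes `≤ Rc J`
(`Rc J < J^(1/3) < m, p`): `|T_e| ≤ N/(0.0245 L^2) + J^(0.645)` (R_sel, R_gwA; `e` is odd and `za`-rough). Sum over `e` (R_seA, at most `27 J^(1.35)` values):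
`2.0002 * 0.00001/0.0245 = 0.000817`, `2.0002 * 0.00013/0.0245 = 0.010614`, plus `O(J^(1.995))`. -/
def S_bgA : Prop := Pool.Agent.CH.F.S_win → R_sel → R_cls → R_gwA → R_seA → R_bgA

/-! ### E. The final assembly -/

/-- Numbers divisible by the square of a large prime. -/
def R_sqA : Prop := ∀ᶠ J : ℕ in atTop, ∀ j ∈ Ioc J (2 * J), (sqa J j : ℝ) ≤ (J : ℝ) ^ (23 / 12 : ℝ)

/-- [FP sqA] Proof: `CA/SV/p_sq.lean`: at most `19 J^2 * 2/za + 6 J^(3/2)`, `2 - 1/11 < 23/12`. -/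
def S_sqA : Prop := R_sqA

/-- Exchange of the summations. -/
def R_swG : Prop := ∀ (J j : ℕ) (f c : ℕ → ℝ) (z Q : ℝ), 1 ≤ J → Wt z Q c → Q ≤ Nat.sqrt J →
  (∑ n ∈ Icc 1 (27 * J ^ 3), f n * wJ J j n * dsum c (n + 2)
    = ∑ q ∈ Icc 1 (Nat.sqrt J), c q * EE J f (-2) j q
      + (∑ q ∈ Icc 1 (Nat.sqrt J), c q / (Nat.totient q : ℝ)) *
        ∑ n ∈ Icc 1 (27 * J ^ 3), f n * wJ J j n) ∧
  ((∀ n, n < 3 → f n * wJ J j n = 0) →
    ∑ n ∈ Icc 1 (27 * J ^ 3), f n * wJ J j n * dsum c (n - 2)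
    = ∑ q ∈ Icc 1 (Nat.sqrt J), c q * EE J f 2 j q
      + (∑ q ∈ Icc 1 (Nat.sqrt J), c q / (Nat.totient q : ℝ)) *
        ∑ n ∈ Icc 1 (27 * J ^ 3), f n * wJ J j n)

/-- [FP swG] Proof: `CA/SV/p_sw.lean` (only `c q = 0` for `q > Nat.sqrt J` is used). -/
def S_swG : Prop := R_swG

/-- The switched sequences: pointwise properties. -/
def R_rrA : Prop := ∀ᶠ J : ℕ in atTop, ∀ n : ℕ, 1 ≤ n → (0 ≤ RB0 J n ∧ 0 ≤ RB1 J n) ∧
  (C0 J n → n ≤ 27 * J ^ 3 → (∀ m : ℕ, m.Prime → m ∣ n → (m : ℝ) ≤ Yc J) → 1 ≤ RB0 J n) ∧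
  (∀ q : ℕ, C1 J q n → n ≤ 27 * J ^ 3 → (∀ m : ℕ, m.Prime → m ∣ n → (m : ℝ) ≤ Y1 (mA J q) J) → 1 ≤ RB1 J n)

/-- [FP rrA] (adapt `CA/SV/p_rr.lean`) Proof. (1) clear. (2) `k = Ω n`: `ya^k ≤ n ≤ 27 J^3 < J^(70/22)`, so `5 ≤ k ≤ 9`; the permutations of the prime factors give `k!` tuples. (3) `q ∈ QS J`, `c = mA J q`:
`za ≤ q < ya` gives `64 ≤ c < 224`, `J^(c/704) ≤ q < J^((c+1)/704)`, so `q ≤ ⌈J^((c+1)/704)⌉ - 1` (natural numbers). `n = q n'`, `n'` squarefree, `ya`-rough, `k = Ω n' = Ω n - 1 ≥ 4`, and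
`za ya^k ≤ n ≤ 27 J^3 < J^(2/22 + 70/22)`, so `k ≤ 9`. The tuples (q, permutation of the primes of `n'`) are counted by `B1 c k J n`: at least `k!`. -/
def S_rrA : Prop := R_rrA

/-- The combined weights for the numbers divisible by a prime in `[za, ya)`. -/
def R_tqW : Prop := ∀ᶠ J : ℕ in atTop, ∀ cq : ℕ → ℕ → ℝ,
  (∀ c : ℕ, 64 ≤ c → c < 224 →
    Wt (za J) ((J : ℝ) ^ (4995 / 10000 - ((c : ℝ) + 1) / 704 + 1 / 10000 : ℝ)) (cq c)) →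
  ∃ C : ℕ → ℝ, Wt (ya J) ((J : ℝ) ^ (4996 / 10000 : ℝ)) C ∧
    (∀ n : ℕ, n ≠ 0 → dsum C n = ∑ q ∈ (QS J).filter (fun q => q ∣ n), dsum (cq (mA J q)) n) ∧
    (∀ N : ℕ, (J : ℝ) ^ (4996 / 10000 : ℝ) ≤ N → ∑ m ∈ Icc 1 N, C m / (Nat.totient m : ℝ) =
      ∑ q ∈ QS J, 1 / ((q : ℝ) - 1) * ∑ d ∈ Icc 1 N, cq (mA J q) d / (Nat.totient d : ℝ))

/-- [FP tqW] Proof. `C m = ∑ q ∈ (QS J).filter (· ∣ m), cq (mA J q) (m / q)`. If `cq (mA J q) d ≠ 0` then all prime factors of `d` are `< za ≤ q`: so for given `m` at most one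
`q ∈ QS J` contributes (it is the only prime factor `≥ za` of `m = q d`), `|C m| ≤ 3`, `m = q d` is squarefree and odd (`q ≥ za > 2`), its prime factors are `< ya`, and with
`c = mA J q` (`64 ≤ c < 224`, `q < J^((c+1)/704)`): `m ≤ J^((c+1)/704) J^(4995/10000 - (c+1)/704 + 1/10000) = J^(4996/10000)`. `dsum`: for `q ∣ n` and `d` coprime to `q`:
`q d ∣ n` iff `d ∣ n`; exchange the sums. Last claim: `φ(q d) = (q - 1) φ(d)`, `C` is supported on `m = q d ≤ N`, and `d ≤ N`. -/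
def S_tqW : Prop := R_tqW

/-- Upper bound for the number of the prime factors in `[za, ya)`. -/
def R_tqA : Prop := ∀ᶠ J : ℕ in atTop, ∀ (cm cx : ℕ → ℝ) (cq : ℕ → ℕ → ℝ), WW J cm cx cq →
  ∀ j ∈ Ioc J (2 * J), Good J j → Ta J j ≤ 1.4454 * VV (za J) * mu J j + (J : ℝ) ^ 2 / Real.log J ^ 3

/-- [FP tqA] Proof. `C` from R_tqW. For a prime `p` with `wJ J j p ≠ 0` (`p > J^3`, `p + 2` odd): `[Rough za (p+2)] #{q ∈ QS : q ∣ p+2} ≤ ∑_{q ∈ QS, q ∣ p+2} dsum (cq (mA J q)) (p+2) = dsum C (p+2)`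
(`SWg.up`, all `dsum (cq c) (p+2) ≥ 0`). So `Ta ≤ ∑ thP wJ dsum C (p+2) = ∑_q C q EE J thP (-2) j q + (∑ C q/φ(q)) ∑ thP wJ` (R_swG, `J^(4996/10000) ≤ Nat.sqrt J`). The first sum is
`≤ J^2/L^3` (Good.g1). `∑ C q/φ(q) = ∑_{q ∈ QS} (1/(q-1)) ∑_d cq (mA J q) d/φ(d) ≤ (1+1/5000) VV(za) ∑_{c=64}^{223} aA c (1 + uS(..))` (`SWg.mp`, R_cellA; `uS ≥ 0` there), Good.g5 and R_numF:
`≤ 1.4454 VV(za) mu`. -/
def S_tqA : Prop := Pool.Agent.CH.F.S_win → R_swG → R_tqW → R_cellA → R_numF → R_tab → R_tqA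

/-- Lower bound. -/
def R_loA : Prop := ∀ᶠ J : ℕ in atTop, ∀ (cm cx : ℕ → ℝ) (cq : ℕ → ℕ → ℝ), WW J cm cx cq →
  ∀ j ∈ Ioc J (2 * J), Good J j → 0.9989 * VV (za J) * mu J j - (J : ℝ) ^ 2 / Real.log J ^ 3 ≤ Sa J j

/-- [FP loA] (adapt `CA/SV/p_lo.lean`) Proof: `Sa ≥ ∑ thP wJ dsum cm (p+2) = ∑ cm q EE J thP (-2) j q + (∑ cm q/φ(q)) ∑ thP wJ ≥ -J^2/L^3 + (1 - lS - 1/2000) VV(za) * 0.9999 mu` (`SWg.lo`, `SWg.mm` (`2/11 ≤ 4995/10000`), Good.g1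
(`cm` is of type `Wt ya`, as `za ≤ ya`), Good.g4, R_numF). -/
def S_loA : Prop := Pool.Agent.CH.F.S_win → R_swG → R_numF → R_loA

/-- Upper bounds for the switched classes. -/
def R_upA : Prop := ∀ᶠ J : ℕ in atTop, ∀ (cm cx : ℕ → ℝ) (cq : ℕ → ℕ → ℝ), WW J cm cx cq →
  ∀ j ∈ Ioc J (2 * J), Good J j →
  T0 J j ≤ (3 * Real.log J + 4) * (72 + (J : ℝ) ^ 2 / Real.log J ^ 3
    + 0.0529 * VV (za J) * mu J j / (3 * Real.log J) + 0.0009 * mu J j / Real.log J ^ 2) ∧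
  T1 J j ≤ (3 * Real.log J + 4) * (72 + (J : ℝ) ^ 2 / Real.log J ^ 3
    + 0.4219 * VV (za J) * mu J j / (3 * Real.log J) + 0.0107 * mu J j / Real.log J ^ 2)

/-- [FP upA] (adapt `CA/SV/p_up.lean`) Proof. `thP p ≤ 3L + 4` for `p ≤ 27J^3`. The primes `p` of the class with a very large prime factor: at most `bg0` (`bg1`). For the others `1 ≤ RB0 J (p+2)` (`RB1`) by R_rrA;
`wJ J j p ≤ wJ J j (p+2) + 4/J^2`, at most `18J^2` values of `p` (S_win): error `72`. `[p prime, p > J^3] ≤ [Rough xa p] ≤ dsum cx p`, `p` odd (`SWg.up`). So with `n = p + 2`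
`∑_p .. ≤ ∑_n RB0 J n wJ J j n dsum cx (n-2) = ∑_q cx q EE J (RB0 J) 2 j q + (∑ cx q/φ(q)) ∑ RB0 wJ ≤ J^2/L^3 + (1+1/5000)(1+uS) VV(xa) * 0.0813 mu/(3L)` (R_swG, Good.g2, g6, `SWg.mp`),
`VV(xa) ≤ (1+1/10000)(16/33) VV(za)` (R_mvg), R_numF: `0.65042 * 0.0813 ≤ 0.0529`, `0.65042 * 0.6486 ≤ 0.4219`. -/
def S_upA : Prop := Pool.Agent.CH.F.S_win → R_swG → R_rrA → R_mvg → R_numF → R_tab → R_upA

open Classical in
/-- The weighted inequality. -/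
def R_ptA : Prop := ∀ J n : ℕ, 1 ≤ J → Squarefree n → Rough (za J) n →
  1 - 1 / 2 * ((((QS J).filter (fun q => q ∣ n)).card : ℕ) : ℝ) - (if C0 J n then 1 else 0)
    - 1 / 2 * (if ∃ q : ℕ, C1 J q n then 1 else 0) ≤ (if Ω n ≤ 4 then (1 : ℝ) else 0)

/-- [FP ptA] Proof. Let `h` be the number of the `q ∈ QS J` dividing `n`. `h ≥ 2`: the left side is `≤ 0`. `h = 1`: the left side is `≤ 1/2`; if `Ω n ≥ 5` then `C1 J q n` holds for this `q` (a prime `p ∣ n/q` is a prime factor of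
`n`, different from `q` because `n` is squarefree, `≥ za`, not in `QS J`; so `p ≥ ya` or `p > J ≥ ya`), and the left side is `≤ 0`. `h = 0`: all prime factors are `≥ ya`; if `Ω n ≥ 5` then `C0 J n` and the left side
is `≤ 0`. In the remaining cases `Ω n ≤ 4` and the left side is `≤ 1`. -/
def S_ptA : Prop := R_ptA

/-- One window. -/
def R_oneA : Prop := ∀ᶠ J : ℕ in atTop, ∀ (cm cx : ℕ → ℝ) (cq : ℕ → ℕ → ℝ), WW J cm cx cq →
  ∀ j ∈ Ioc J (2 * J), Good J j → 0.002 * (J : ℝ) ^ 2 / Real.log J ^ 2 ≤ ((cubeSet4 j).ncard : ℝ)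

/-- [FP oneA] (adapt `CA/SV/p_one.lean`) Proof. `Pa ≥ Sa - Ta/2 - T0 - T1/2 - (3L+4) sqa`: R_ptA for the `p` with `p + 2` squarefree and rough, the other rough ones contribute at most `(3L+4) sqa J j` to `Sa` and nonnegative amounts to
`Ta, T0, T1`. With `V = VV(za)`: `≥ (0.9989 - 0.7227) V mu - 1.5 J^2/L^3 - (3L+4)((0.0529 + 0.21095) V mu/(3L) + (0.0009 + 0.00535) mu/L^2 + 108 + 1.5 J^2/L^3) - (3L+4) J^(23/12)
≥ (0.01235 - 0.36/L) V mu - (0.01875 + 0.025/L) mu/L - 6 J^2/L^2 - ..`, and `V ≥ 6.2/L` (R_VA): `≥ (0.075 - 0.019) mu/L - .. ≥ 0.05 mu/L ≥ 0.025 J^2/L` for large `J`. Each term of `Pa` is `≤ 3L + 4 ≤ 4L`, so there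
are at least `0.006 J^2/L^2` primes `p` with `wJ J j p ≠ 0`, `Rough za (p+2)`, `Ω (p+2) ≤ 4`; they lie in `cubeSet4 j` (S_win; a prime `q ∣ p+2` is `≥ J^(1/11)`, `q^12 ≥ J^(12/11) > 2J ≥ j`), which is finite. -/
def S_oneA : Prop := R_VA → Pool.Agent.CH.F.S_win → R_loA → R_tqA → R_upA → R_ptA → R_oneA

/-- All windows are good. -/
def R_goodA : Prop := ∀ᶠ J : ℕ in atTop, ∀ j ∈ Ioc J (2 * J), Good J j

/-- [FP goodA] Proof. g1: `FinG (7/22) FT (-2)` with `A = 3`. g2: `EE` is linear in the sequence, `EE J (RB0 J) 2 j q = ∑_k (1/k!) EE J (B0 k J) 2 j q`, FinG with `A = 4` for `5 ≤ k ≤ 9`. g3: the same with `160 * 6` sequences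
(`Filter.eventually_all_finset`), `960 J^2/L^4 ≤ J^2/L^3`. g4, g5: R_m1A, g6, g7: R_msA, g8: R_sqA, g9, g10: R_bgA. -/
def S_goodA : Prop := FinG (7 / 22) FT (-2) → (∀ k ∈ Icc 5 9, FinG (3 / 16) (B0 k) 2) →
  (∀ c ∈ Ico 64 224, ∀ k ∈ Icc 4 9, FinG (3 / 16) (B1 c k) 2) → R_m1A → R_msA → R_sqA → R_bgA → R_goodA

/-- [FP finA] The conclusion. Proof: for `n` large put `J = n - 1`, `j = n ∈ Ioc J (2J)`: R_goodA, R_WW, R_oneA give `0.002 (n-1)^2/log(n-1)^2 ≤ ncard`, and the left side is `≥ 0.001 n^2/(log n)^2`. -/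
def S_finA : Prop := R_goodA → R_WW → R_oneA → I_final4

end Pool.Agent.CA.FP
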